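import Pool.Agent.helper28.Cosine.Basic

open Module RealInnerProductSpace MeasureTheory Matrix

namespace Pool.Agent.helper28.Cosine

variable {V : Type*} [NormedAddCommGroup V] [InnerProductSpace ℝ V] [FiniteDimensional ℝ V]
variable {k n : ℕ}

/-- formula for the orthogonal projection onto the span of an independent tuple -/
noncomputable def projF (Z : Fin k → V) : V →L[ℝ] V :=
  ∑ i, ∑ j, ((gram ℝ Z)⁻¹ i j) • (innerSL ℝ (Z j)).smulRight (Z i)

lemma projF_eq {Z : Fin k → V} (hZ : LinearIndependent ℝ Z) :
    (Submodule.span ℝ (Set.range Z)).starProjection = projF Z := by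
  have hdet : IsUnit (gram ℝ Z).det := isUnit_iff_ne_zero.mpr (det_gram_ne_zero_iff_linearIndependent.mpr hZ)
  ext1 y
  apply Submodule.eq_starProjection_of_mem_of_inner_eq_zero
  · simp only [projF, _root_.sum_apply, _root_.smul_apply,
      ContinuousLinearMap.smulRight_apply]
    refine Submodule.sum_mem _ fun i _ => Submodule.sum_mem _ fun j _ => ?_
    exact Submodule.smul_mem _ _ (Submodule.smul_mem _ _
      (Submodule.subset_span (Set.mem_range_self i)))
  · intro w hw
    induction hw using Submodule.span_induction with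
    | mem x hx =>
      obtain ⟨l, rfl⟩ := hx
      have h1 : ⟪projF Z y, Z l⟫ = ⟪y, Z l⟫ := by
        simp only [projF, _root_.sum_apply, _root_.smul_apply,
          ContinuousLinearMap.smulRight_apply, sum_inner, inner_smul_left, innerSL_apply_apply,
          RCLike.conj_to_real]
        have h2 : ∀ j, ∑ i, (gram ℝ Z)⁻¹ i j * ⟪Z i, Z l⟫ = (1 : Matrix (Fin k) (Fin k) ℝ) l j := by
          intro j
          rw [← Matrix.mul_nonsing_inv (gram ℝ Z) hdet, Matrix.mul_apply]
          refine Finset.sum_congr rfl fun i _ => ?_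
          rw [gram_apply, real_inner_comm]; ring
        rw [Finset.sum_comm]
        have h3 : ∀ j, ∑ i, (gram ℝ Z)⁻¹ i j * (⟪Z j, y⟫ * ⟪Z i, Z l⟫) =
            ⟪Z j, y⟫ * (1 : Matrix (Fin k) (Fin k) ℝ) l j := by
          intro j
          rw [← h2, Finset.mul_sum]
          refine Finset.sum_congr rfl fun i _ => ?_
          ring
        simp only [h3, Matrix.one_apply]
        simp [real_inner_comm]
      rw [inner_sub_left, h1, sub_self]
    | zero => simp
    | add x y _ _ hx hy => rw [inner_add_right, hx, hy, add_zero]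
    | smul a x _ hx => rw [inner_smul_right, hx, mul_zero]

lemma isOpen_li : IsOpen {Z : Fin k → V | LinearIndependent ℝ Z} :=
  isOpen_setOfPred_linearIndependent

lemma continuousOn_projF :
    ContinuousOn (projF : (Fin k → V) → _) {Z : Fin k → V | LinearIndependent ℝ Z} := by
  have hg : Continuous fun Z : Fin k → V => gram ℝ Z := by
    refine continuous_matrix fun i j => ?_
    simp only [gram_apply]
    fun_prop
  have hinv : ContinuousOn (fun Z : Fin k → V => (gram ℝ Z)⁻¹)
      {Z : Fin k → V | LinearIndependent ℝ Z} := by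
    have h1 : (fun Z : Fin k → V => (gram ℝ Z)⁻¹) =
        fun Z => ((gram ℝ Z).det)⁻¹ • (gram ℝ Z).adjugate := by
      ext1 Z
      rw [Matrix.inv_def, Ring.inverse_eq_inv']
    rw [h1]
    have c1 : ContinuousOn (fun Z : Fin k → V => ((gram ℝ Z).det)⁻¹)
        {Z : Fin k → V | LinearIndependent ℝ Z} := by
      refine ContinuousOn.inv₀ hg.matrix_det.continuousOn ?_
      intro Z hZ
      exact det_gram_ne_zero_iff_linearIndependent.mpr hZ
    have c2 : ContinuousOn (fun Z : Fin k → V => (gram ℝ Z).adjugate)
        {Z : Fin k → V | LinearIndependent ℝ Z} := hg.matrix_adjugate.continuousOn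
    exact c1.smul c2
  unfold projF
  refine continuousOn_finsetSum _ fun i _ => continuousOn_finsetSum _ fun j _ => ?_
  have c1 : ContinuousOn (fun Z : Fin k → V => (gram ℝ Z)⁻¹ i j)
      {Z : Fin k → V | LinearIndependent ℝ Z} :=
    (continuous_apply_apply i j).comp_continuousOn hinv
  have c2 : Continuous (fun Z : Fin k → V => (innerSL ℝ (Z j)).smulRight (Z i)) := by
    fun_prop
  exact c1.smul c2.continuousOn

open Classical in
/-- the span map from tuples to the Grassmannian -/
noncomputable def spanMap (E₀ : Gr V k) (Z : Fin k → V) : Gr V k :=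
  if h : LinearIndependent ℝ Z then
    ⟨Submodule.span ℝ (Set.range Z), by rw [finrank_span_eq_card h, Fintype.card_fin]⟩
  else E₀

lemma continuousOn_spanMap (E₀ : Gr V k) :
    ContinuousOn (spanMap E₀) {Z : Fin k → V | LinearIndependent ℝ Z} := by
  rw [continuousOn_iff_continuous_domRestrict, continuous_induced_rng]
  have h := continuousOn_iff_continuous_domRestrict.mp (continuousOn_projF (V := V) (k := k))
  refine h.congr ?_
  rintro ⟨Z, hZ⟩
  have hZ' : LinearIndependent ℝ Z := hZ
  simp only [Function.comp_apply, Set.domRestrict_apply]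
  rw [← projF_eq hZ', spanMap, dif_pos hZ']
  rfl

/-- the open set of independent tuples of vectors of norm less than one -/
def U (V : Type*) [NormedAddCommGroup V] [InnerProductSpace ℝ V] (k : ℕ) : Set (Fin k → V) := {Z | LinearIndependent ℝ Z ∧ ∀ i, ‖Z i‖ < 1}

lemma isOpen_U : IsOpen (U V k) := by
  have h1 : IsOpen {Z : Fin k → V | ∀ i, ‖Z i‖ < 1} := by
    simp only [Set.ofPred_forall]
    exact isOpen_iInter_of_finite fun i => isOpen_lt (by fun_prop) continuous_const
  exact isOpen_li.inter h1

lemma exists_invariant (hn : finrank ℝ V = n) (h : k ≤ n) :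
    ∃ μ : Measure (Gr V k), IsInvariantProb μ := by
  classical
  letI : MeasurableSpace V := borel V
  haveI : BorelSpace V := ⟨rfl⟩
  -- a base point
  let e : OrthonormalBasis (Fin n) ℝ V := (stdOrthonormalBasis ℝ V).reindex (finCongr hn)
  have he : LinearIndependent ℝ (e ∘ Fin.castLE h) :=
    (e.orthonormal.comp _ (Fin.castLE_injective h)).linearIndependent
  let E₀ : Gr V k := ⟨Submodule.span ℝ (Set.range (e ∘ Fin.castLE h)), by
    rw [finrank_span_eq_card he, Fintype.card_fin]⟩
  have hne : (U V k).Nonempty := by
    refine ⟨fun i => (1/2 : ℝ) • (e ∘ Fin.castLE h) i, ?_, ?_⟩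
    · exact he.units_smul (fun _ => Units.mk0 (1/2 : ℝ) (by norm_num))
    · intro i
      rw [norm_smul]
      simp
      norm_num
  have hpos : (volume : Measure (Fin k → V)) (U V k) ≠ 0 := (isOpen_U.measure_pos _ hne).ne'
  have hfin : (volume : Measure (Fin k → V)) (U V k) ≠ ⊤ := by
    have hb : U V k ⊆ Metric.ball 0 1 := by
      rintro Z ⟨_, hZ⟩
      rw [mem_ball_zero_iff, pi_norm_lt_iff zero_lt_one]
      exact hZ
    exact ((measure_mono hb).trans_lt measure_ball_lt_top).ne
  let ν : Measure (Fin k → V) := (volume (U V k))⁻¹ • (volume.restrict (U V k))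
  have hν : IsProbabilityMeasure ν := by
    constructor
    simp only [ν, Measure.smul_apply, Measure.restrict_apply_univ, smul_eq_mul]
    exact ENNReal.inv_mul_cancel hpos hfin
  have hae : ∀ᵐ Z ∂ν, Z ∈ U V k := by
    have : ∀ᵐ Z ∂(volume.restrict (U V k)), Z ∈ U V k := ae_restrict_mem isOpen_U.measurableSet
    exact Measure.ae_smul_measure this _
  have hSm : AEMeasurable (spanMap E₀) ν := by
    have h1 : ContinuousOn (spanMap E₀) (U V k) :=
      (continuousOn_spanMap E₀).mono fun Z hZ => hZ.1
    have h2 : AEMeasurable (spanMap E₀) (volume.restrict (U V k)) :=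
      h1.aemeasurable isOpen_U.measurableSet
    exact h2.smul_measure _
  refine ⟨ν.map (spanMap E₀), ?_, ?_⟩
  · exact Measure.isProbabilityMeasure_map hSm
  · intro g
    -- g acts on tuples
    have hgm : MeasurePreserving (fun Z : Fin k → V => fun i => g (Z i)) volume volume :=
      volume_preserving_pi fun _ => g.measurePreserving
    have hgU : (fun Z : Fin k → V => fun i => g (Z i)) ⁻¹' (U V k) = U V k := by
      ext Z
      simp only [U, Set.mem_preimage, Set.mem_ofPred_eq, LinearIsometryEquiv.norm_map]
      have : LinearIndependent ℝ (fun i => g (Z i)) ↔ LinearIndependent ℝ Z :=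
        LinearMap.linearIndependent_iff g.toLinearEquiv.toLinearMap
          (LinearMap.ker_eq_bot.mpr g.injective)
      rw [this]
    have hgν : ν.map (fun Z : Fin k → V => fun i => g (Z i)) = ν := by
      simp only [ν]
      rw [Measure.map_smul]
      congr 1
      have := (hgm.restrict_preimage isOpen_U.measurableSet).map_eq
      rwa [hgU] at this
    rw [AEMeasurable.map_map_of_aemeasurable (continuous_map g).measurable.aemeasurable hSm]
    have h1 : Gr.map g ∘ spanMap E₀ =ᵐ[ν] spanMap E₀ ∘ (fun Z : Fin k → V => fun i => g (Z i)) := by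
      filter_upwards [hae] with Z hZ
      have hZ1 : LinearIndependent ℝ Z := hZ.1
      have hZ2 : LinearIndependent ℝ (fun i => g (Z i)) :=
        (LinearMap.linearIndependent_iff g.toLinearEquiv.toLinearMap
          (LinearMap.ker_eq_bot.mpr g.injective)).mpr hZ1
      simp only [Function.comp_apply, spanMap, dif_pos hZ1, dif_pos hZ2]
      simp only [Gr.map, Gr.mk.injEq]
      rw [Submodule.map_span, ← Set.range_comp]
      rfl
    rw [Measure.map_congr h1]
    have hSm' : AEMeasurable (spanMap E₀) (ν.map (fun Z : Fin k → V => fun i => g (Z i))) := by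
      rw [hgν]; exact hSm
    rw [← AEMeasurable.map_map_of_aemeasurable hSm' hgm.measurable.aemeasurable, hgν]

end Pool.Agent.helper28.Cosine
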