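import Pool.Agent.helper28.Cosine.Frames

open Module RealInnerProductSpace

namespace Pool.Agent.helper28.Cosine

variable {k n : ℕ}

lemma theta_expand (I J : Set.powersetCard (Fin n) k) (θ : ℝ) :
    θ ^ (dif J I) = ∑ T : Finset (Fin n),
      (if T ⊆ (I : Finset (Fin n)) then 1 else 0) * (if T ⊆ (J : Finset (Fin n)) then 1 else 0) *
        ((1 - θ) ^ T.card * θ ^ (k - T.card)) := by
  classical
  have hcard : ((J : Finset (Fin n)) ∩ (I : Finset (Fin n))).card + dif J I = k := by
    have := Finset.card_inter_add_card_sdiff (J : Finset (Fin n)) (I : Finset (Fin n))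
    rw [dif, this]; exact J.prop
  have h1 : ∑ T : Finset (Fin n),
      (if T ⊆ (I : Finset (Fin n)) then (1:ℝ) else 0) * (if T ⊆ (J : Finset (Fin n)) then 1 else 0) *
        ((1 - θ) ^ T.card * θ ^ (k - T.card)) =
      ∑ T ∈ ((J : Finset (Fin n)) ∩ (I : Finset (Fin n))).powerset,
        ((1 - θ) ^ T.card * θ ^ (k - T.card)) := by
    rw [← Finset.sum_filter_add_sum_filter_not Finset.univ
      (fun T => T ∈ ((J : Finset (Fin n)) ∩ (I : Finset (Fin n))).powerset)]
    have e1 : ∑ T ∈ Finset.univ.filter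
        (fun T => ¬ T ∈ ((J : Finset (Fin n)) ∩ (I : Finset (Fin n))).powerset),
        (if T ⊆ (I : Finset (Fin n)) then (1:ℝ) else 0) *
          (if T ⊆ (J : Finset (Fin n)) then 1 else 0) *
        ((1 - θ) ^ T.card * θ ^ (k - T.card)) = 0 := by
      refine Finset.sum_eq_zero fun T hT => ?_
      simp only [Finset.mem_filter, Finset.mem_univ, true_and, Finset.mem_powerset,
        Finset.subset_inter_iff, not_and_or] at hT
      rcases hT with h | h <;> simp [h]
    rw [e1, add_zero]
    have e2 : Finset.univ.filter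
        (fun T => T ∈ ((J : Finset (Fin n)) ∩ (I : Finset (Fin n))).powerset) =
        ((J : Finset (Fin n)) ∩ (I : Finset (Fin n))).powerset := by
      ext T; simp
    rw [e2]
    refine Finset.sum_congr rfl fun T hT => ?_
    rw [Finset.mem_powerset, Finset.subset_inter_iff] at hT
    simp [hT.1, hT.2]
  rw [h1]
  have h2 : ∀ T ∈ ((J : Finset (Fin n)) ∩ (I : Finset (Fin n))).powerset,
      (1 - θ) ^ T.card * θ ^ (k - T.card) =
        θ ^ (dif J I) * ((1 - θ) ^ T.card *
          θ ^ (((J : Finset (Fin n)) ∩ (I : Finset (Fin n))).card - T.card)) := by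
    intro T hT
    have hle : T.card ≤ ((J : Finset (Fin n)) ∩ (I : Finset (Fin n))).card :=
      Finset.card_le_card (Finset.mem_powerset.mp hT)
    have : k - T.card = dif J I +
        (((J : Finset (Fin n)) ∩ (I : Finset (Fin n))).card - T.card) := by omega
    rw [this, pow_add]; ring
  rw [Finset.sum_congr rfl h2, ← Finset.mul_sum, Finset.sum_pow_mul_eq_add_pow]
  simp

lemma theta_pos (g : Set.powersetCard (Fin n) k → ℝ) {θ : ℝ} (h0 : 0 ≤ θ) (h1 : θ ≤ 1) :
    (1 - θ) ^ k * ∑ I, g I ^ 2 ≤ ∑ I, ∑ J, g I * g J * θ ^ (dif J I) := by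
  classical
  have e1 : ∑ I, ∑ J, g I * g J * θ ^ (dif J I) =
      ∑ T : Finset (Fin n), ((1 - θ) ^ T.card * θ ^ (k - T.card)) *
        (∑ I, g I * (if T ⊆ (I : Finset (Fin n)) then 1 else 0)) ^ 2 := by
    simp_rw [theta_expand, Finset.mul_sum]
    have : ∀ T : Finset (Fin n), ((1 - θ) ^ T.card * θ ^ (k - T.card)) *
        (∑ I, g I * (if T ⊆ (I : Finset (Fin n)) then 1 else 0)) ^ 2 =
        ∑ I, ∑ J, g I * g J * ((if T ⊆ (I : Finset (Fin n)) then 1 else 0) *
          (if T ⊆ (J : Finset (Fin n)) then 1 else 0) *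
        ((1 - θ) ^ T.card * θ ^ (k - T.card))) := by
      intro T
      rw [sq, Finset.sum_mul_sum, Finset.mul_sum]
      refine Finset.sum_congr rfl fun I _ => ?_
      rw [Finset.mul_sum]
      refine Finset.sum_congr rfl fun J _ => ?_
      ring
    simp_rw [this]
    rw [Finset.sum_comm]
    rw [Finset.sum_comm (s := (Finset.univ : Finset (Finset (Fin n))))]
    rw [Finset.sum_comm]
    refine Finset.sum_congr rfl fun I _ => ?_
    rw [Finset.sum_comm]
  rw [e1]
  have e2 : (1 - θ) ^ k * ∑ I, g I ^ 2 =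
      ∑ T ∈ Finset.univ.map (⟨fun I : Set.powersetCard (Fin n) k => (I : Finset (Fin n)),
        Subtype.val_injective⟩ : _ ↪ Finset (Fin n)),
        ((1 - θ) ^ T.card * θ ^ (k - T.card)) *
        (∑ I, g I * (if T ⊆ (I : Finset (Fin n)) then 1 else 0)) ^ 2 := by
    rw [Finset.sum_map, Finset.mul_sum]
    refine Finset.sum_congr rfl fun T _ => ?_
    have hT : ((T : Finset (Fin n))).card = k := T.prop
    simp only [Function.Embedding.coeFn_mk]
    rw [hT, Nat.sub_self, pow_zero, mul_one]
    congr 2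
    rw [Finset.sum_eq_single T]
    · simp
    · intro J _ hJ
      have : ¬ ((T : Finset (Fin n)) ⊆ (J : Finset (Fin n))) := by
        intro h
        exact hJ (Set.powersetCard.eq_iff_subset.mpr h).symm
      simp [this]
    · simp
  rw [e2]
  refine Finset.sum_le_sum_of_subset_of_nonneg (Finset.subset_univ _) fun T _ _ => ?_
  have : 0 ≤ 1 - θ := by linarith
  positivity

lemma quad_pos (g : Set.powersetCard (Fin n) k → ℝ) :
    (1 / (k + 1 : ℝ)) * ∑ I, g I ^ 2 ≤
      ∑ I, ∑ J, g I * g J / (dif J I + 1 : ℝ) := by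
  have key : ∫ θ in (0:ℝ)..1, ∑ I, ∑ J, g I * g J * θ ^ (dif J I) =
      ∑ I, ∑ J, g I * g J / (dif J I + 1 : ℝ) := by
    rw [intervalIntegral.integral_finsetSum]
    · refine Finset.sum_congr rfl fun I _ => ?_
      rw [intervalIntegral.integral_finsetSum]
      · refine Finset.sum_congr rfl fun J _ => ?_
        rw [intervalIntegral.integral_const_mul, integral_pow]
        simp [div_eq_mul_inv]
      · intro J _
        exact (Continuous.intervalIntegrable (by fun_prop) _ _)
    · intro J _
      exact (Continuous.intervalIntegrable (by fun_prop) _ _)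
  have key2 : ∫ θ in (0:ℝ)..1, (1 - θ) ^ k * ∑ I, g I ^ 2 = (1 / (k + 1 : ℝ)) * ∑ I, g I ^ 2 := by
    rw [intervalIntegral.integral_mul_const]
    congr 1
    have := intervalIntegral.integral_comp_sub_left (a := 0) (b := 1) (fun x : ℝ => x ^ k) 1
    rw [this]
    simp [integral_pow]
  rw [← key, ← key2]
  refine intervalIntegral.integral_mono_on zero_le_one
    (Continuous.intervalIntegrable (by fun_prop) _ _)
    (Continuous.intervalIntegrable (by fun_prop) _ _) ?_
  intro θ hθ
  exact theta_pos g hθ.1 hθ.2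

/-- The matrix `1 / (|J \ I| + 1)` is invertible. -/
lemma exists_solution (h : Set.powersetCard (Fin n) k → ℝ) :
    ∃ g : Set.powersetCard (Fin n) k → ℝ, ∀ J, ∑ I, g I / (dif J I + 1 : ℝ) = h J := by
  classical
  let L : (Set.powersetCard (Fin n) k → ℝ) →ₗ[ℝ] (Set.powersetCard (Fin n) k → ℝ) :=
    { toFun := fun g J => ∑ I, g I / (dif J I + 1 : ℝ)
      map_add' := by
        intro x y; ext J
        simp [add_div, Finset.sum_add_distrib]
      map_smul' := by
        intro c x; ext J
        simp [Finset.mul_sum, mul_div_assoc] }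
  have hinj : Function.Injective L := by
    rw [← LinearMap.ker_eq_bot, LinearMap.ker_eq_bot']
    intro g hg
    have h1 : ∑ I, ∑ J, g I * g J / (dif J I + 1 : ℝ) = 0 := by
      rw [Finset.sum_comm]
      refine Finset.sum_eq_zero fun J _ => ?_
      have : ∑ I, g I / (dif J I + 1 : ℝ) = 0 := congrFun hg J
      calc ∑ I, g I * g J / (dif J I + 1 : ℝ) = g J * ∑ I, g I / (dif J I + 1 : ℝ) := by
            rw [Finset.mul_sum]; refine Finset.sum_congr rfl fun I _ => ?_; ring
        _ = 0 := by rw [this, mul_zero]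
    have h2 := quad_pos g
    rw [h1] at h2
    have h3 : ∑ I, g I ^ 2 = 0 := by
      have h4 : 0 ≤ ∑ I, g I ^ 2 := Finset.sum_nonneg fun I _ => sq_nonneg _
      have h5 : (0:ℝ) < 1 / (k + 1 : ℝ) := by positivity
      nlinarith
    ext I
    have := (Finset.sum_eq_zero_iff_of_nonneg (fun I _ => sq_nonneg (g I))).mp h3 I (Finset.mem_univ I)
    simpa using this
  obtain ⟨g, hg⟩ := (LinearMap.injective_iff_surjective.mp hinj) h
  exact ⟨g, fun J => congrFun hg J⟩

end Pool.Agent.helper28.Cosine
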