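import Pool.Agent.helper28.Cosine.Defs
import Pool.Agent.helper28.Cosine.PD

open Module RealInnerProductSpace MeasureTheory

namespace Pool.Agent.helper28.Cosine

variable {V : Type*} [NormedAddCommGroup V] [InnerProductSpace ℝ V] [FiniteDimensional ℝ V]
variable {k n : ℕ}

/-- an orthonormal frame of a point of the Grassmannian -/
noncomputable def fr (E : Gr V k) : Fin k → V :=
  fun i => ((stdOrthonormalBasis ℝ E.carrier).reindex (finCongr E.finrank_eq) i : V)

lemma fr_orthonormal (E : Gr V k) : Orthonormal ℝ (fr E) :=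
  ((stdOrthonormalBasis ℝ E.carrier).reindex (finCongr E.finrank_eq)).orthonormal.comp_linearIsometry
    E.carrier.subtypeₗᵢ

lemma span_fr (E : Gr V k) : Submodule.span ℝ (Set.range (fr E)) = E.carrier := by
  have h := ((stdOrthonormalBasis ℝ E.carrier).reindex (finCongr E.finrank_eq)).toBasis.span_eq
  have h2 : Set.range (fr E) = E.carrier.subtype ''
      (Set.range ((stdOrthonormalBasis ℝ E.carrier).reindex (finCongr E.finrank_eq)).toBasis) := by
    rw [← Set.range_comp]; rfl
  rw [h2, ← Submodule.map_span, h, Submodule.map_top, Submodule.range_subtype]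

/-- Pluecker coordinate of `E` along the tuple `x` (defined up to a common sign) -/
noncomputable def pc (E : Gr V k) (x : Fin k → V) : ℝ := ⟪om (fr E), om x⟫

lemma pc_mul (E : Gr V k) (x y : Fin k → V) :
    pc E x * pc E y = Matrix.det (Matrix.of fun i j => ⟪x i, E.proj (y j)⟫) := by
  rw [pc, pc, om_mul_om (fr_orthonormal E)]
  have : (Submodule.span ℝ (Set.range (fr E))).starProjection = E.proj := by
    rw [Gr.proj]; congr 1; exact span_fr E
  rw [this]

lemma abs_pc (E : Gr V k) (x : Fin k → V) :
    |pc E x| = Real.sqrt (Matrix.det (Matrix.of fun i j => ⟪x i, E.proj (x j)⟫)) := by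
  rw [← pc_mul, Real.sqrt_mul_self_eq_abs]

lemma abs_pc_le_one (E : Gr V k) {x : Fin k → V} (hx : Orthonormal ℝ x) : |pc E x| ≤ 1 := by
  have h1 := abs_real_inner_le_norm (om (fr E)) (om x)
  have h2 : ‖om (fr E)‖ = 1 := by
    rw [norm_eq_sqrt_real_inner, inner_om_self_of_orthonormal (fr_orthonormal E), Real.sqrt_one]
  have h3 : ‖om x‖ = 1 := by
    rw [norm_eq_sqrt_real_inner, inner_om_self_of_orthonormal hx, Real.sqrt_one]
  rw [h2, h3, mul_one] at h1
  exact h1

lemma proj_map (g : V ≃ₗᵢ[ℝ] V) (E : Gr V k) (x : V) :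
    (Gr.map g E).proj x = g (E.proj (g.symm x)) := by
  have := Submodule.starProjection_map_apply g E.carrier x
  exact this

lemma pc_mul_map (g : V ≃ₗᵢ[ℝ] V) (E : Gr V k) (x y : Fin k → V) :
    pc (Gr.map g E) (g ∘ x) * pc (Gr.map g E) (g ∘ y) = pc E x * pc E y := by
  rw [pc_mul, pc_mul]
  congr 2
  ext i j
  simp [proj_map]

lemma abs_pc_map (g : V ≃ₗᵢ[ℝ] V) (E : Gr V k) (x : Fin k → V) :
    |pc (Gr.map g E) (g ∘ x)| = |pc E x| := by
  rw [← Real.sqrt_mul_self_eq_abs, pc_mul_map, Real.sqrt_mul_self_eq_abs]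

lemma continuous_proj : Continuous (Gr.proj : Gr V k → _) := continuous_induced_dom

lemma continuous_pc_mul (x y : Fin k → V) : Continuous fun E : Gr V k => pc E x * pc E y := by
  simp_rw [pc_mul]
  apply Continuous.matrix_det
  refine continuous_matrix fun i j => ?_
  simp only [Matrix.of_apply]
  exact Continuous.inner continuous_const (continuous_proj.clm_apply continuous_const)

lemma continuous_abs_pc (x : Fin k → V) : Continuous fun E : Gr V k => |pc E x| := by
  simp_rw [← Real.sqrt_mul_self_eq_abs]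
  exact (continuous_pc_mul x x).sqrt

lemma continuous_map (g : V ≃ₗᵢ[ℝ] V) : Continuous (Gr.map g : Gr V k → Gr V k) := by
  rw [continuous_induced_rng]
  have : (Gr.proj ∘ Gr.map g : Gr V k → _) = fun E =>
      (g.toContinuousLinearEquiv : V →L[ℝ] V).comp
        (E.proj.comp (g.symm.toContinuousLinearEquiv : V →L[ℝ] V)) := by
    ext E x
    simp [proj_map]
  rw [this]
  exact continuous_const.clm_comp (continuous_proj.clm_comp continuous_const)

lemma det_compProj (E E' : Gr V k) {v : Fin k → V} (hv : Orthonormal ℝ v)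
    (hv' : Submodule.span ℝ (Set.range v) = E'.carrier) :
    LinearMap.det (compProj E.carrier E'.carrier) = ⟪om v, om (fr E)⟫ * ⟪om v, om (fr E)⟫ := by
  rw [om_mul_om hv, ← LinearMap.det_toMatrix
    ((stdOrthonormalBasis ℝ E.carrier).reindex (finCongr E.finrank_eq)).toBasis]
  congr 1
  ext i j
  rw [LinearMap.toMatrix_apply, OrthonormalBasis.coe_toBasis_repr_apply,
    OrthonormalBasis.repr_apply_apply, OrthonormalBasis.coe_toBasis]
  have h2 : (Submodule.span ℝ (Set.range v)).starProjection = E'.carrier.starProjection := by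
    congr 1
  simp only [Matrix.of_apply, h2]
  have h3 : ∀ w : V, ⟪((stdOrthonormalBasis ℝ E.carrier).reindex (finCongr E.finrank_eq) i),
      E.carrier.orthogonalProjectionOnto w⟫ = ⟪fr E i, w⟫ := by
    intro w
    exact E.carrier.inner_orthogonalProjectionOnto_eq_of_mem_left _ _
  exact h3 _

/-- `|cos(E,E')|` through Pluecker coordinates. -/
lemma absCos_eq (E E' : Gr V k) {v : Fin k → V} (hv : Orthonormal ℝ v)
    (hv' : Submodule.span ℝ (Set.range v) = E'.carrier) :
    absCos E.carrier E'.carrier = |pc E v| := by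
  rw [absCos, det_compProj E E' hv hv', Real.sqrt_mul_self_eq_abs, pc, real_inner_comm]

end Pool.Agent.helper28.Cosine
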