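import Mathlib

open MeasureTheory Module

namespace Pool.Agent.helper28.Cosine

/-- The Grassmannian `Gr_k(V)` of `k`-dimensional linear subspaces of the Euclidean space `V`. -/
structure Gr (V : Type*) [NormedAddCommGroup V] [InnerProductSpace ℝ V] (k : ℕ) where
  /-- the underlying subspace -/
  carrier : Submodule ℝ V
  /-- it has dimension `k` -/
  finrank_eq : finrank ℝ carrier = k

variable {V : Type*} [NormedAddCommGroup V] [InnerProductSpace ℝ V] [FiniteDimensional ℝ V]
variable {k : ℕ}

/-- The orthogonal projection `P_E` of `V` onto the subspace `E`. -/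
noncomputable def Gr.proj (E : Gr V k) : V →L[ℝ] V := E.carrier.starProjection

/-- The usual topology of the Grassmannian: the one induced by `E ↦ P_E`. -/
noncomputable instance : TopologicalSpace (Gr V k) :=
  TopologicalSpace.induced Gr.proj inferInstance

/-- The Borel sigma-algebra of the Grassmannian. -/
noncomputable instance : MeasurableSpace (Gr V k) := borel (Gr V k)

instance : BorelSpace (Gr V k) := ⟨rfl⟩

/-- The image `g E` of a subspace under a linear isometry `g` of `V`. -/
def Gr.map (g : V ≃ₗᵢ[ℝ] V) (E : Gr V k) : Gr V k :=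
  ⟨E.carrier.map g.toLinearEquiv.toLinearMap, by
    rw [LinearEquiv.finrank_map_eq g.toLinearEquiv E.carrier]; exact E.finrank_eq⟩

/-- A Borel measure on the Grassmannian is the invariant probability measure `dE` if it has
total mass one and is preserved by every linear isometry of `V`. -/
def IsInvariantProb (μ : Measure (Gr V k)) : Prop :=
  IsProbabilityMeasure μ ∧ ∀ g : V ≃ₗᵢ[ℝ] V, μ.map (Gr.map g) = μ

/-- The composite `P_E ∘ P_{E'} : E → E`. -/
noncomputable def compProj (E E' : Submodule ℝ V) : E →ₗ[ℝ] E :=
  ((E.orthogonalProjectionOnto.comp (E'.starProjection)).comp E.subtypeL : E →L[ℝ] E)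

/-- `|cos(E,E')| = sqrt (det (P_E ∘ P_{E'} : E → E))`. -/
noncomputable def absCos (E E' : Submodule ℝ V) : ℝ :=
  Real.sqrt (LinearMap.det (compProj E E'))

/-- A real function on `Gr_k(V)` is smooth if it is the restriction, along the embedding
`E ↦ P_E` of the Grassmannian in the endomorphisms of `V`, of a smooth function. -/
def IsSmooth (f : Gr V k → ℝ) : Prop :=
  ∃ Φ : (V →L[ℝ] V) → ℝ, ContDiff ℝ (⊤ : ℕ∞) Φ ∧ ∀ E : Gr V k, f E = Φ E.proj

/-- The cosine transform `(C f)(E') = ∫ |cos(E,E')| f(E) dE`. -/
noncomputable def cosTransform (μ : Measure (Gr V k)) (f : Gr V k → ℝ) (E' : Gr V k) : ℝ :=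
  ∫ E, absCos E.carrier E'.carrier * f E ∂μ

end Pool.Agent.helper28.Cosine
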