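import Mathlib

open MeasureTheory Filter Topology

namespace Pool.Agent.helper28.Cosine

/-- symmetric difference quotient -/
lemma tendsto_symm_quot {φ : ℝ → ℝ} {c : ℝ} (h : HasDerivAt φ c 0) :
    Tendsto (fun t => (φ t - φ (-t)) / (2 * t)) (𝓝[>] 0) (𝓝 c) := by
  have h1 : Tendsto (fun t : ℝ => t⁻¹ * (φ t - φ 0)) (𝓝[≠] 0) (𝓝 c) := by
    have := hasDerivAt_iff_tendsto_slope_zero.mp h
    simpa using this
  have h2 : Tendsto (fun t : ℝ => -t) (𝓝[≠] 0) (𝓝[≠] 0) := by
    apply tendsto_nhdsWithin_of_tendsto_nhds_of_eventually_within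
    · have : Tendsto (fun t : ℝ => -t) (𝓝 0) (𝓝 (-0)) := tendsto_neg 0
      rw [neg_zero] at this
      exact this.mono_left nhdsWithin_le_nhds
    · filter_upwards [self_mem_nhdsWithin] with t ht
      simpa using ht
  have h3 := (h1.add (h1.comp h2)).const_mul (1/2)
  have h4 : (1/2 : ℝ) * (c + c) = c := by ring
  rw [h4] at h3
  refine (h3.mono_left (nhdsWithin_mono 0 ?_)).congr' ?_
  · intro t ht; exact ne_of_gt ht
  · filter_upwards [self_mem_nhdsWithin] with t ht
    have ht' : t ≠ 0 := ne_of_gt ht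
    simp only [Function.comp_apply]
    field_simp
    ring

/-- the rotated integrand -/
noncomputable def rotf (X X' Y Y' t : ℝ) : ℝ :=
  |Real.cos t * X + Real.sin t * X'| *
    ((-Real.sin t * Y' + Real.cos t * Y) * (Real.cos t * Y' + Real.sin t * Y))

lemma rotf_deriv (X X' Y Y' : ℝ) :
    Tendsto (fun t => (rotf X X' Y Y' t - rotf X X' Y Y' (-t)) / (2 * t)) (𝓝[>] 0)
      (𝓝 (SignType.sign X * X' * (Y * Y') + |X| * (Y ^ 2 - Y' ^ 2))) := by
  have hB : HasDerivAt (fun t => ((-Real.sin t * Y' + Real.cos t * Y) *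
      (Real.cos t * Y' + Real.sin t * Y))) (Y ^ 2 - Y' ^ 2) 0 := by
    have hs := Real.hasDerivAt_sin 0
    have hc := Real.hasDerivAt_cos 0
    have := ((hs.neg.mul_const Y').add (hc.mul_const Y)).mul
      ((hc.mul_const Y').add (hs.mul_const Y))
    refine this.congr_deriv ?_
    simp only [Pi.add_apply, Pi.neg_apply, Real.sin_zero, Real.cos_zero]
    ring
  by_cases hX : X = 0
  · subst hX
    have h0 : Tendsto (fun t : ℝ => |Real.sin t * X'|) (𝓝[>] 0) (𝓝 0) := by
      have : Continuous fun t : ℝ => |Real.sin t * X'| := by fun_prop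
      have h := this.tendsto 0
      simp only [Real.sin_zero, zero_mul, abs_zero] at h
      exact h.mono_left nhdsWithin_le_nhds
    have h1 := h0.mul (tendsto_symm_quot hB)
    simp only [zero_mul] at h1
    simp only [sign_zero, SignType.coe_zero, zero_mul, abs_zero, add_zero]
    refine h1.congr fun t => ?_
    simp only [rotf, mul_zero, zero_add, Real.sin_neg, Real.cos_neg, neg_mul, abs_neg]
    ring
  · have hA : HasDerivAt (fun t => |Real.cos t * X + Real.sin t * X'|)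
        (SignType.sign X * X') 0 := by
      have hs := Real.hasDerivAt_sin 0
      have hc := Real.hasDerivAt_cos 0
      have h1 := (hc.mul_const X).add (hs.mul_const X')
      have h2 : Real.cos 0 * X + Real.sin 0 * X' ≠ 0 := by simpa using hX
      have h3 := (hasDerivAt_abs h2).comp (0:ℝ) h1
      refine h3.congr_deriv ?_
      simp only [Real.sin_zero, Real.cos_zero]
      ring_nf
    refine tendsto_symm_quot ?_
    have := hA.mul hB
    refine this.congr_deriv ?_
    simp only [Real.sin_zero, Real.cos_zero]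
    ring_nf

lemma rotf_bound {X X' Y Y' t : ℝ} (hX : |X| ≤ 1) (hX' : |X'| ≤ 1) (hY : |Y| ≤ 1)
    (hY' : |Y'| ≤ 1) (ht : 0 < t) :
    |(rotf X X' Y Y' t - rotf X X' Y Y' (-t)) / (2 * t)| ≤ 6 := by
  have hs : |Real.sin t| ≤ t := by
    have := Real.abs_sin_le_abs (x := t)
    rwa [abs_of_pos ht] at this
  have hc : |Real.cos t| ≤ 1 := Real.abs_cos_le_one t
  have hs1 : |Real.sin t| ≤ 1 := Real.abs_sin_le_one t
  set A1 := Real.cos t * X + Real.sin t * X' with hA1
  set A2 := Real.cos t * X - Real.sin t * X' with hA2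
  set B1 := (-Real.sin t * Y' + Real.cos t * Y) * (Real.cos t * Y' + Real.sin t * Y) with hB1
  set B2 := (Real.sin t * Y' + Real.cos t * Y) * (Real.cos t * Y' - Real.sin t * Y) with hB2
  have e1 : rotf X X' Y Y' t - rotf X X' Y Y' (-t) = (|A1| - |A2|) * B1 + |A2| * (B1 - B2) := by
    have : rotf X X' Y Y' (-t) = |A2| * B2 := by
      simp only [rotf, Real.sin_neg, Real.cos_neg, hA2, hB2]
      ring_nf
    rw [this]
    simp only [rotf, hA1, hB1]
    ring
  have b1 : |(|A1| - |A2|)| ≤ 2 * t := by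
    refine (abs_abs_sub_abs_le_abs_sub A1 A2).trans ?_
    have : A1 - A2 = 2 * (Real.sin t * X') := by rw [hA1, hA2]; ring
    rw [this, abs_mul, abs_mul, abs_two]
    have : |Real.sin t| * |X'| ≤ t * 1 := mul_le_mul hs hX' (abs_nonneg _) ht.le
    linarith
  have f1 : ∀ p q u v : ℝ, |p| ≤ 1 → |q| ≤ 1 → |u| ≤ 1 → |v| ≤ 1 → |p * q + u * v| ≤ 2 := by
    intro p q u v hp hq hu hv
    refine (abs_add_le _ _).trans ?_
    rw [abs_mul, abs_mul]
    have h1 : |p| * |q| ≤ 1 * 1 := mul_le_mul hp hq (abs_nonneg _) zero_le_one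
    have h2 : |u| * |v| ≤ 1 * 1 := mul_le_mul hu hv (abs_nonneg _) zero_le_one
    linarith
  have b2 : |B1| ≤ 4 := by
    rw [hB1, abs_mul]
    have h1 : |-Real.sin t * Y' + Real.cos t * Y| ≤ 2 :=
      f1 _ _ _ _ (by rwa [abs_neg]) hY' hc hY
    have h2 : |Real.cos t * Y' + Real.sin t * Y| ≤ 2 := f1 _ _ _ _ hc hY' hs1 hY
    calc _ ≤ 2 * 2 := mul_le_mul h1 h2 (abs_nonneg _) (by norm_num)
      _ = 4 := by norm_num
  have b3 : |A2| ≤ 2 := by
    have : A2 = Real.cos t * X + (-Real.sin t) * X' := by rw [hA2]; ring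
    rw [this]
    exact f1 _ _ _ _ hc hX (by rwa [abs_neg]) hX'
  have b4 : |B1 - B2| ≤ 2 * t := by
    have : B1 - B2 = 2 * (Real.sin t * (Real.cos t * (Y ^ 2 - Y' ^ 2))) := by
      rw [hB1, hB2]; ring
    rw [this, abs_mul, abs_mul, abs_mul, abs_two]
    have h1 : |Y ^ 2 - Y' ^ 2| ≤ 1 := by
      have h2 : Y ^ 2 ≤ 1 := by rw [← sq_abs]; exact pow_le_one₀ (abs_nonneg _) hY
      have h3 : Y' ^ 2 ≤ 1 := by rw [← sq_abs]; exact pow_le_one₀ (abs_nonneg _) hY'
      rw [abs_le]; constructor <;> nlinarith [sq_nonneg Y, sq_nonneg Y']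
    have h2 : |Real.cos t| * |Y ^ 2 - Y' ^ 2| ≤ 1 * 1 :=
      mul_le_mul hc h1 (abs_nonneg _) zero_le_one
    have h3 : |Real.sin t| * (|Real.cos t| * |Y ^ 2 - Y' ^ 2|) ≤ t * (1 * 1) :=
      mul_le_mul hs h2 (by positivity) ht.le
    linarith
  rw [e1, abs_div, abs_of_pos (by positivity : (0:ℝ) < 2 * t), div_le_iff₀ (by positivity)]
  refine (abs_add_le _ _).trans ?_
  rw [abs_mul (|A1| - |A2|) B1, abs_mul (|A2|) (B1 - B2), abs_abs A2]
  have h1 : |(|A1| - |A2|)| * |B1| ≤ (2 * t) * 4 :=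
    mul_le_mul b1 b2 (abs_nonneg _) (by positivity)
  have h2 : |A2| * |B1 - B2| ≤ 2 * (2 * t) := mul_le_mul b3 b4 (abs_nonneg _) (by norm_num)
  linarith

/-- Differentiation of an invariant integral along a rotation. -/
lemma integral_rotation {Ω : Type*} [MeasurableSpace Ω] (μ : Measure Ω) [IsProbabilityMeasure μ]
    (X X' Y Y' : Ω → ℝ) (hX : ∀ E, |X E| ≤ 1) (hX' : ∀ E, |X' E| ≤ 1) (hY : ∀ E, |Y E| ≤ 1)
    (hY' : ∀ E, |Y' E| ≤ 1)
    (hm : ∀ t, AEStronglyMeasurable (fun E => rotf (X E) (X' E) (Y E) (Y' E) t) μ)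
    (c : ℝ) (hinv : ∀ t, ∫ E, rotf (X E) (X' E) (Y E) (Y' E) t ∂μ = c) :
    ∫ E, (SignType.sign (X E) * X' E * (Y E * Y' E) + |X E| * (Y E ^ 2 - Y' E ^ 2)) ∂μ = 0 := by
  have hint : ∀ t, Integrable (fun E => rotf (X E) (X' E) (Y E) (Y' E) t) μ := by
    intro t
    refine Integrable.of_bound (hm t) 8 (Filter.Eventually.of_forall fun E => ?_)
    have f1 : ∀ p q u v : ℝ, |p| ≤ 1 → |q| ≤ 1 → |u| ≤ 1 → |v| ≤ 1 → |p * q + u * v| ≤ 2 := by
      intro p q u v hp hq hu hv
      refine (abs_add_le _ _).trans ?_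
      rw [abs_mul, abs_mul]
      have h1 : |p| * |q| ≤ 1 * 1 := mul_le_mul hp hq (abs_nonneg _) zero_le_one
      have h2 : |u| * |v| ≤ 1 * 1 := mul_le_mul hu hv (abs_nonneg _) zero_le_one
      linarith
    have hc : |Real.cos t| ≤ 1 := Real.abs_cos_le_one t
    have hs1 : |Real.sin t| ≤ 1 := Real.abs_sin_le_one t
    rw [Real.norm_eq_abs, rotf, abs_mul, abs_abs, abs_mul]
    have h1 := f1 _ _ _ _ hc (hX E) hs1 (hX' E)
    have h2 := f1 (-Real.sin t) (Y' E) _ _ (by rwa [abs_neg]) (hY' E) hc (hY E)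
    have h3 := f1 _ _ _ _ hc (hY' E) hs1 (hY E)
    have h4 : |-Real.sin t * Y' E + Real.cos t * Y E| * |Real.cos t * Y' E + Real.sin t * Y E|
        ≤ 2 * 2 := mul_le_mul h2 h3 (abs_nonneg _) (by norm_num)
    calc _ ≤ 2 * (2 * 2) := mul_le_mul h1 h4 (by positivity) (by norm_num)
      _ = 8 := by norm_num
  let u : ℕ → ℝ := fun m => 1 / ((m : ℝ) + 1)
  have hu0 : ∀ m, 0 < u m := fun m => by positivity
  have hu : Tendsto u atTop (𝓝[>] 0) := by
    apply tendsto_nhdsWithin_of_tendsto_nhds_of_eventually_within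
    · exact tendsto_one_div_add_atTop_nhds_zero_nat
    · exact Filter.Eventually.of_forall hu0
  have hlim := tendsto_integral_of_dominated_convergence (μ := μ)
    (F := fun m E => (rotf (X E) (X' E) (Y E) (Y' E) (u m) -
      rotf (X E) (X' E) (Y E) (Y' E) (-(u m))) / (2 * (u m)))
    (f := fun E => (SignType.sign (X E) * X' E * (Y E * Y' E) + |X E| * (Y E ^ 2 - Y' E ^ 2)))
    (fun _ => (6:ℝ)) (fun m => (((hm _).sub (hm _)).aemeasurable.div_const _).aestronglyMeasurable) (integrable_const _)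
    (fun m => Filter.Eventually.of_forall fun E => by
      rw [Real.norm_eq_abs]
      exact rotf_bound (hX E) (hX' E) (hY E) (hY' E) (hu0 m))
    (Filter.Eventually.of_forall fun E => (rotf_deriv (X E) (X' E) (Y E) (Y' E)).comp hu)
  have hzero : ∀ m, ∫ E, (rotf (X E) (X' E) (Y E) (Y' E) (u m) -
      rotf (X E) (X' E) (Y E) (Y' E) (-(u m))) / (2 * (u m)) ∂μ = 0 := by
    intro m
    rw [integral_div, integral_sub (hint _) (hint _), hinv, hinv, sub_self, zero_div]
  simp only [hzero] at hlim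
  exact (tendsto_nhds_unique hlim tendsto_const_nhds)

end Pool.Agent.helper28.Cosine
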