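import Mathlib

open Module RealInnerProductSpace

namespace Pool.Agent.helper28.Cosine

section general

variable {V : Type*} [NormedAddCommGroup V] [InnerProductSpace ℝ V] [FiniteDimensional ℝ V]
variable {k n : ℕ}

/-- the decomposable multivector of a tuple -/
noncomputable def om (u : Fin k → V) : ⋀[ℝ]^k V := exteriorPower.ιMulti ℝ k u

lemma inner_om (x y : Fin k → V) :
    ⟪om x, om y⟫ = Matrix.det (Matrix.of fun i j => ⟪x j, y i⟫) :=
  exteriorPower.inner_ιMulti_ιMulti x y

lemma inner_om' (x y : Fin k → V) :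
    ⟪om x, om y⟫ = Matrix.det (Matrix.of fun i j => ⟪x i, y j⟫) := by
  rw [inner_om, ← Matrix.det_transpose]; rfl

/-- the sub-tuple of a basis indexed by a `k`-subset -/
noncomputable def sub (b : Fin n → V) (J : Set.powersetCard (Fin n) k) : Fin k → V :=
  b ∘ (Set.powersetCard.ofFinEmbEquiv.symm J)

lemma onb_ext (b : OrthonormalBasis (Fin n) ℝ V) (J : Set.powersetCard (Fin n) k) :
    (b.exteriorPower k) J = om (sub b J) := by
  have h : (b.exteriorPower k).toBasis J = om (sub b J) := by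
    rw [OrthonormalBasis.toBasis_exteriorPower, exteriorPower.coe_basis,
      OrthonormalBasis.coe_toBasis]
    rfl
  rw [← h, OrthonormalBasis.coe_toBasis]

lemma cauchyBinet (b : OrthonormalBasis (Fin n) ℝ V) (x y : ⋀[ℝ]^k V) :
    ⟪x, y⟫ = ∑ J : Set.powersetCard (Fin n) k, ⟪x, om (sub b J)⟫ * ⟪om (sub b J), y⟫ := by
  rw [← OrthonormalBasis.sum_inner_mul_inner (b.exteriorPower k) x y]
  simp only [onb_ext]

lemma inner_om_self_of_orthonormal {u : Fin k → V} (hu : Orthonormal ℝ u) :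
    ⟪om u, om u⟫ = 1 := by
  have : (Matrix.of fun i j => ⟪u j, u i⟫) = (1 : Matrix (Fin k) (Fin k) ℝ) := by
    ext i j
    rw [Matrix.of_apply, orthonormal_iff_ite.mp hu, Matrix.one_apply]
    simp [eq_comm]
  rw [inner_om, this, Matrix.det_one]

lemma starProjection_span {u : Fin k → V} (hu : Orthonormal ℝ u) (y : V) :
    (Submodule.span ℝ (Set.range u)).starProjection y = ∑ i, ⟪u i, y⟫ • u i := by
  apply Submodule.eq_starProjection_of_mem_of_inner_eq_zero
  · exact Submodule.sum_mem _ fun i _ =>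
      Submodule.smul_mem _ _ (Submodule.subset_span (Set.mem_range_self i))
  · intro w hw
    induction hw using Submodule.span_induction with
    | mem x hx =>
      obtain ⟨j, rfl⟩ := hx
      rw [inner_sub_left, sum_inner]
      simp only [inner_smul_left, orthonormal_iff_ite.mp hu, RCLike.conj_to_real]
      simp [real_inner_comm]
    | zero => simp
    | add x y _ _ hx hy => rw [inner_add_right, hx, hy, add_zero]
    | smul a x _ hx => rw [inner_smul_right, hx, mul_zero]

/-- product of two Pluecker coordinates through the projection -/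
lemma om_mul_om {u : Fin k → V} (hu : Orthonormal ℝ u) (x y : Fin k → V) :
    ⟪om u, om x⟫ * ⟪om u, om y⟫ =
      Matrix.det (Matrix.of fun i j =>
        ⟪x i, (Submodule.span ℝ (Set.range u)).starProjection (y j)⟫) := by
  have h1 : (Matrix.of fun i j =>
        ⟪x i, (Submodule.span ℝ (Set.range u)).starProjection (y j)⟫) =
      (Matrix.of fun i j => ⟪u j, x i⟫) * (Matrix.of fun i j => ⟪u i, y j⟫) := by
    ext i j
    rw [Matrix.mul_apply]
    simp only [Matrix.of_apply, starProjection_span hu, inner_sum, inner_smul_right]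
    refine Finset.sum_congr rfl fun l _ => ?_
    rw [real_inner_comm (u l) (x i)]; ring
  rw [h1, Matrix.det_mul, ← inner_om', ← inner_om]

/-- `det (θ + c A B) = det (θ + c B A)` -/
lemma det_add_mul_comm (A B : Matrix (Fin k) (Fin k) ℝ) {θ : ℝ} (hθ : θ ≠ 0) (c : ℝ) :
    (θ • (1 : Matrix (Fin k) (Fin k) ℝ) + c • (A * B)).det =
      (θ • (1 : Matrix (Fin k) (Fin k) ℝ) + c • (B * A)).det := by
  have h1 : θ • (1 : Matrix (Fin k) (Fin k) ℝ) + c • (A * B) =
      θ • (1 + ((c / θ) • A) * B) := by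
    rw [smul_add, Matrix.smul_mul, smul_smul, mul_div_cancel₀ _ hθ]
  have h2 : θ • (1 : Matrix (Fin k) (Fin k) ℝ) + c • (B * A) =
      θ • (1 + B * ((c / θ) • A)) := by
    rw [smul_add, Matrix.mul_smul, smul_smul, mul_div_cancel₀ _ hθ]
  rw [h1, h2, Matrix.det_smul, Matrix.det_smul, Matrix.det_one_add_mul_comm]

lemma sum_emb {M : Type*} [AddCommMonoid M] (J : Set.powersetCard (Fin n) k) (f : Fin n → M) :
    ∑ i : Fin k, f (Set.powersetCard.ofFinEmbEquiv.symm J i) = ∑ j ∈ (J : Finset (Fin n)), f j := by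
  rw [← Finset.map_orderEmbOfFin_univ (J : Finset (Fin n)) J.prop, Finset.sum_map]
  rfl

lemma prod_emb {M : Type*} [CommMonoid M] (J : Set.powersetCard (Fin n) k) (f : Fin n → M) :
    ∏ i : Fin k, f (Set.powersetCard.ofFinEmbEquiv.symm J i) = ∏ j ∈ (J : Finset (Fin n)), f j := by
  rw [← Finset.map_orderEmbOfFin_univ (J : Finset (Fin n)) J.prop, Finset.prod_map]
  rfl

/-- number of elements of `J` outside `K` -/
def dif (J K : Set.powersetCard (Fin n) k) : ℕ := ((J : Finset (Fin n)) \ (K : Finset (Fin n))).card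

/-- the diagonal deformation: identity on the span of `b_i, i ∈ K`, multiplication by `θ` on the rest -/
lemma sum_theta (b : OrthonormalBasis (Fin n) ℝ V) (K : Set.powersetCard (Fin n) k)
    {v : Fin k → V} (θ : ℝ) :
    ∑ J : Set.powersetCard (Fin n) k, ⟪om (sub b J), om v⟫ ^ 2 * θ ^ (dif J K) =
      Matrix.det (Matrix.of fun i j =>
        θ * ⟪v i, v j⟫ + (1 - θ) * ∑ l, ⟪v i, sub b K l⟫ * ⟪sub b K l, v j⟫) := by
  classical
  -- weights
  set w : Fin n → ℝ := fun i => if i ∈ (K : Finset (Fin n)) then 1 else θ with hw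
  -- diagonal operator
  set D : V → V := fun x => ∑ i, w i • (⟪b i, x⟫ • b i) with hD
  have hDb : ∀ x i, ⟪b i, D x⟫ = w i * ⟪b i, x⟫ := by
    intro x i
    simp only [hD, inner_sum, inner_smul_right, orthonormal_iff_ite.mp b.orthonormal]
    simp
  have h1 : ∀ J : Set.powersetCard (Fin n) k,
      ⟪om (sub b J), om (fun j => D (v j))⟫ = θ ^ (dif J K) * ⟪om (sub b J), om v⟫ := by
    intro J
    rw [inner_om', inner_om']
    have : (Matrix.of fun i j => ⟪sub b J i, D (v j)⟫) =
        Matrix.diagonal (fun i => w (Set.powersetCard.ofFinEmbEquiv.symm J i)) *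
        (Matrix.of fun i j => ⟪sub b J i, v j⟫) := by
      ext i j
      rw [Matrix.diagonal_mul]
      simp [sub, hDb]
    rw [this, Matrix.det_mul, Matrix.det_diagonal]
    congr 1
    rw [prod_emb J w, hw]
    simp only [dif]
    rw [Finset.prod_ite, Finset.prod_const_one, one_mul, Finset.prod_const]
    congr 2
    ext x
    simp only [Finset.mem_filter, Finset.mem_sdiff]
  have h2 : ⟪om v, om (fun j => D (v j))⟫ =
      ∑ J : Set.powersetCard (Fin n) k, ⟪om (sub b J), om v⟫ ^ 2 * θ ^ (dif J K) := by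
    rw [cauchyBinet b]
    refine Finset.sum_congr rfl fun J _ => ?_
    rw [h1, real_inner_comm (om v) (om (sub b J))]; ring
  rw [← h2, inner_om']
  congr 1
  ext i j
  simp only [Matrix.of_apply]
  have e1 : ⟪v i, D (v j)⟫ = ∑ l, w l * (⟪v i, b l⟫ * ⟪b l, v j⟫) := by
    simp only [hD, inner_sum, inner_smul_right]
    refine Finset.sum_congr rfl fun l _ => ?_
    ring
  have e2 : ⟪v i, v j⟫ = ∑ l, ⟪v i, b l⟫ * ⟪b l, v j⟫ := by
    rw [OrthonormalBasis.sum_inner_mul_inner]
  have e3 : ∑ l, ⟪v i, sub b K l⟫ * ⟪sub b K l, v j⟫ =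
      ∑ l ∈ (K : Finset (Fin n)), ⟪v i, b l⟫ * ⟪b l, v j⟫ :=
    sum_emb K (fun l => ⟪v i, b l⟫ * ⟪b l, v j⟫)
  rw [e1, e2, e3]
  rw [← Finset.sum_filter_add_sum_filter_not Finset.univ (fun l => l ∈ (K : Finset (Fin n)))
    (fun l => w l * (⟪v i, b l⟫ * ⟪b l, v j⟫)),
    ← Finset.sum_filter_add_sum_filter_not Finset.univ (fun l => l ∈ (K : Finset (Fin n)))
    (fun l => (⟪v i, b l⟫ * ⟪b l, v j⟫))]
  have e4 : Finset.univ.filter (fun l => l ∈ (K : Finset (Fin n))) = (K : Finset (Fin n)) := by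
    ext x; simp only [Finset.mem_filter, Finset.mem_univ, true_and]
  rw [e4]
  have e5 : ∑ l ∈ (K : Finset (Fin n)), w l * (⟪v i, b l⟫ * ⟪b l, v j⟫) =
      ∑ l ∈ (K : Finset (Fin n)), (⟪v i, b l⟫ * ⟪b l, v j⟫) := by
    refine Finset.sum_congr rfl fun l hl => ?_
    simp only [hw, if_pos hl, one_mul]
  have e6 : ∑ l ∈ Finset.univ.filter (fun l => ¬ l ∈ (K : Finset (Fin n))),
        w l * (⟪v i, b l⟫ * ⟪b l, v j⟫) =
      θ * ∑ l ∈ Finset.univ.filter (fun l => ¬ l ∈ (K : Finset (Fin n))),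
        (⟪v i, b l⟫ * ⟪b l, v j⟫) := by
    rw [Finset.mul_sum]
    refine Finset.sum_congr rfl fun l hl => ?_
    have : l ∉ (K : Finset (Fin n)) := by
      simpa only [Finset.mem_filter, Finset.mem_univ, true_and] using hl
    simp only [hw, if_neg this]
  rw [e5, e6]
  ring

/-- Symmetric form of the theta identity: the roles of two subspaces can be exchanged. -/
lemma theta_symm (b e : OrthonormalBasis (Fin n) ℝ V) (K I : Set.powersetCard (Fin n) k)
    {θ : ℝ} (hθ : θ ≠ 0) :
    ∑ J : Set.powersetCard (Fin n) k, ⟪om (sub b J), om (sub e I)⟫ ^ 2 * θ ^ (dif J K) =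
    ∑ J : Set.powersetCard (Fin n) k, ⟪om (sub e J), om (sub b K)⟫ ^ 2 * θ ^ (dif J I) := by
  rw [sum_theta, sum_theta]
  have hb : Orthonormal ℝ (sub b K) :=
    b.orthonormal.comp _ (Set.powersetCard.ofFinEmbEquiv.symm K).injective
  have he : Orthonormal ℝ (sub e I) :=
    e.orthonormal.comp _ (Set.powersetCard.ofFinEmbEquiv.symm I).injective
  set X : Matrix (Fin k) (Fin k) ℝ := Matrix.of fun i j => ⟪sub e I i, sub b K j⟫ with hX
  have h1 : (Matrix.of fun i j => θ * ⟪sub e I i, sub e I j⟫ +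
      (1 - θ) * ∑ l, ⟪sub e I i, sub b K l⟫ * ⟪sub b K l, sub e I j⟫) =
      θ • (1 : Matrix (Fin k) (Fin k) ℝ) + (1 - θ) • (X * X.transpose) := by
    ext i j
    simp only [Matrix.of_apply, Matrix.add_apply, Matrix.smul_apply, Matrix.one_apply,
      Matrix.mul_apply, Matrix.transpose_apply, hX, smul_eq_mul, orthonormal_iff_ite.mp he]
    congr 2
    refine Finset.sum_congr rfl fun l _ => ?_
    rw [real_inner_comm (sub b K l) (sub e I j)]
  have h2 : (Matrix.of fun i j => θ * ⟪sub b K i, sub b K j⟫ +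
      (1 - θ) * ∑ l, ⟪sub b K i, sub e I l⟫ * ⟪sub e I l, sub b K j⟫) =
      θ • (1 : Matrix (Fin k) (Fin k) ℝ) + (1 - θ) • (X.transpose * X) := by
    ext i j
    simp only [Matrix.of_apply, Matrix.add_apply, Matrix.smul_apply, Matrix.one_apply,
      Matrix.mul_apply, Matrix.transpose_apply, hX, smul_eq_mul, orthonormal_iff_ite.mp hb]
    congr 2
    refine Finset.sum_congr rfl fun l _ => ?_
    rw [real_inner_comm (sub b K i) (sub e I l)]
  rw [h1, h2, det_add_mul_comm _ _ hθ]

/-- The same identity integrated over `θ ∈ [0,1]`. -/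
lemma inv_symm (b e : OrthonormalBasis (Fin n) ℝ V) (K I : Set.powersetCard (Fin n) k) :
    ∑ J : Set.powersetCard (Fin n) k, ⟪om (sub b J), om (sub e I)⟫ ^ 2 / (dif J K + 1 : ℝ) =
    ∑ J : Set.powersetCard (Fin n) k, ⟪om (sub e J), om (sub b K)⟫ ^ 2 / (dif J I + 1 : ℝ) := by
  have key : ∀ (c : Set.powersetCard (Fin n) k → ℝ) (m : Set.powersetCard (Fin n) k → ℕ),
      ∫ θ in (0:ℝ)..1, ∑ J, c J * θ ^ (m J) = ∑ J, c J / (m J + 1 : ℝ) := by
    intro c m
    rw [intervalIntegral.integral_finset_sum]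
    · refine Finset.sum_congr rfl fun J _ => ?_
      rw [intervalIntegral.integral_const_mul, integral_pow]
      simp [div_eq_mul_inv]
    · intro J _
      exact (Continuous.intervalIntegrable (by fun_prop) _ _)
  rw [← key, ← key]
  refine intervalIntegral.integral_congr_ae ?_
  filter_upwards with θ hθ
  rw [Set.uIoc_of_le zero_le_one] at hθ
  exact theta_symm b e K I hθ.1.ne'

end general

end Pool.Agent.helper28.Cosine
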