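import Pool.Agent.helper28.Cosine.Recursion

open Module RealInnerProductSpace MeasureTheory

namespace Pool.Agent.helper28.Cosine

variable {V : Type*} [NormedAddCommGroup V] [InnerProductSpace ℝ V] [FiniteDimensional ℝ V]
variable {k n : ℕ}

/-- the first `k` indices -/
noncomputable def K0 (h : k ≤ n) : Set.powersetCard (Fin n) k :=
  Set.powersetCard.ofFinEmbEquiv (Fin.castLEOrderEmb h)

lemma sub_K0 (h : k ≤ n) (b : Fin n → V) : sub b (K0 h) = b ∘ Fin.castLE h := by
  rw [sub, K0, Equiv.symm_apply_apply]; rfl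

/-- extend an orthonormal tuple to an orthonormal basis -/
lemma exists_extend (hn : finrank ℝ V = n) (h : k ≤ n) {x : Fin k → V} (hx : Orthonormal ℝ x) :
    ∃ b : OrthonormalBasis (Fin n) ℝ V, b ∘ Fin.castLE h = x := by
  classical
  let v : Fin n → V := fun j => if hj : (j : ℕ) < k then x ⟨j, hj⟩ else 0
  have hcard : finrank ℝ V = Fintype.card (Fin n) := by rw [hn, Fintype.card_fin]
  have hv : Orthonormal ℝ (({j : Fin n | (j : ℕ) < k} : Set (Fin n)).domRestrict v) := by
    rw [orthonormal_iff_ite]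
    rintro ⟨i, hi⟩ ⟨j, hj⟩
    have hi' : (i : ℕ) < k := hi
    have hj' : (j : ℕ) < k := hj
    simp only [Set.domRestrict_apply, v, dif_pos hi', dif_pos hj', orthonormal_iff_ite.mp hx,
      Subtype.mk.injEq, Fin.ext_iff]
  obtain ⟨b, hb⟩ := hv.exists_orthonormalBasis_extension_of_card_eq hcard
  refine ⟨b, funext fun i => ?_⟩
  have hi : ((Fin.castLE h i : Fin n) : ℕ) < k := i.2
  rw [Function.comp_apply, hb _ hi]
  simp [v]

lemma outs_sub (J K : Set.powersetCard (Fin n) k) :
    (outs (Set.powersetCard.ofFinEmbEquiv.symm K) (Set.powersetCard.ofFinEmbEquiv.symm J)).card =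
      dif J K := by
  classical
  rw [dif]
  have h : ((J : Finset (Fin n)) \ (K : Finset (Fin n))) =
      (outs (Set.powersetCard.ofFinEmbEquiv.symm K) (Set.powersetCard.ofFinEmbEquiv.symm J)).map
        (Set.powersetCard.ofFinEmbEquiv.symm J).toEmbedding := by
    ext x
    rw [Finset.mem_sdiff, Finset.mem_map]
    constructor
    · rintro ⟨hxJ, hxK⟩
      obtain ⟨i, rfl⟩ := (Set.powersetCard.mem_range_ofFinEmbEquiv_symm_iff_mem J x).mpr hxJ
      refine ⟨i, ?_, rfl⟩
      rw [mem_outs, Set.powersetCard.mem_range_ofFinEmbEquiv_symm_iff_mem]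
      exact hxK
    · rintro ⟨i, hi, rfl⟩
      rw [mem_outs, Set.powersetCard.mem_range_ofFinEmbEquiv_symm_iff_mem] at hi
      exact ⟨(Set.powersetCard.mem_range_ofFinEmbEquiv_symm_iff_mem J _).mp ⟨i, rfl⟩, hi⟩
  rw [h, Finset.card_map]

lemma sub_orthonormal (b : OrthonormalBasis (Fin n) ℝ V) (J : Set.powersetCard (Fin n) k) :
    Orthonormal ℝ (sub b J) :=
  b.orthonormal.comp _ (Set.powersetCard.ofFinEmbEquiv.symm J).injective

lemma pc_expand (b : OrthonormalBasis (Fin n) ℝ V) (E : Gr V k) (x : Fin k → V) :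
    pc E x = ∑ J : Set.powersetCard (Fin n) k, ⟪om (sub b J), om x⟫ * pc E (sub b J) := by
  rw [pc, cauchyBinet b]
  refine Finset.sum_congr rfl fun J _ => ?_
  rw [pc, mul_comm]

/-- `∫ |p_K| p_x²` -/
lemma weighted_square {μ : Measure (Gr V k)} (hμ : IsInvariantProb μ)
    (b : OrthonormalBasis (Fin n) ℝ V) (K : Set.powersetCard (Fin n) k) (x : Fin k → V) :
    ∫ E, |pc E (sub b K)| * (pc E x * pc E x) ∂μ =
      J3 μ (sub b K) (sub b K) (sub b K) *
        ∑ J : Set.powersetCard (Fin n) k, ⟪om (sub b J), om x⟫ ^ 2 / (dif J K + 1 : ℝ) := by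
  have := hμ.1
  have h1 : ∀ E : Gr V k, |pc E (sub b K)| * (pc E x * pc E x) =
      ∑ J : Set.powersetCard (Fin n) k, ∑ J' : Set.powersetCard (Fin n) k,
        (⟪om (sub b J), om x⟫ * ⟪om (sub b J'), om x⟫) *
          (|pc E (sub b K)| * (pc E (sub b J) * pc E (sub b J'))) := by
    intro E
    rw [pc_expand b E x, Finset.sum_mul_sum, Finset.mul_sum]
    refine Finset.sum_congr rfl fun J _ => ?_
    rw [Finset.mul_sum]
    refine Finset.sum_congr rfl fun J' _ => ?_
    ring
  have hint : ∀ J J' : Set.powersetCard (Fin n) k, Integrable (fun E : Gr V k =>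
      (⟪om (sub b J), om x⟫ * ⟪om (sub b J'), om x⟫) *
          (|pc E (sub b K)| * (pc E (sub b J) * pc E (sub b J')))) μ := fun J J' =>
    (integrable_J3 (sub_orthonormal b K) (sub_orthonormal b J) (sub_orthonormal b J')).const_mul _
  simp only [h1]
  rw [integral_finsetSum _ (fun J _ => integrable_finsetSum _ fun J' _ => hint J J'),
    Finset.mul_sum]
  refine Finset.sum_congr rfl fun J _ => ?_
  rw [integral_finsetSum _ (fun J' _ => hint J J'), Finset.sum_eq_single J]
  · rw [integral_const_mul]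
    have h2 := moment_formula hμ b
      (Set.powersetCard.ofFinEmbEquiv.symm K).injective (dif J K)
      (Set.powersetCard.ofFinEmbEquiv.symm J)
      (Set.powersetCard.ofFinEmbEquiv.symm J).injective (outs_sub J K)
    rw [J3] at h2
    have h3 : ∫ E, |pc E (sub b K)| * (pc E (sub b J) * pc E (sub b J)) ∂μ =
        J3 μ (sub b K) (sub b K) (sub b K) / (dif J K + 1 : ℝ) := h2
    rw [h3]
    ring
  · intro J' _ hJ'
    rw [integral_const_mul]
    obtain ⟨i, hiJ, hiJ'⟩ := (Set.powersetCard.exists_mem_notMem_iff_ne J J').mp (Ne.symm hJ')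
    have h4 := J3_off hμ b (Set.powersetCard.ofFinEmbEquiv.symm K).injective
      (Set.powersetCard.ofFinEmbEquiv.symm J).injective
      ((Set.powersetCard.mem_range_ofFinEmbEquiv_symm_iff_mem J i).mpr hiJ)
      (z := Set.powersetCard.ofFinEmbEquiv.symm J')
      (fun h => hiJ' ((Set.powersetCard.mem_range_ofFinEmbEquiv_symm_iff_mem J' i).mp h))
    rw [J3] at h4
    have h5 : ∫ E, |pc E (sub b K)| * (pc E (sub b J) * pc E (sub b J')) ∂μ = 0 := h4
    rw [h5, mul_zero]
  · intro h; exact absurd (Finset.mem_univ _) h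

/-- the constant `∫ |p_K|³`, which does not depend on the orthonormal basis -/
noncomputable def v0 (μ : Measure (Gr V k)) (x : Fin k → V) : ℝ := J3 μ x x x

lemma v0_eq {μ : Measure (Gr V k)} (hμ : IsInvariantProb μ) (hn : finrank ℝ V = n) (h : k ≤ n)
    {x y : Fin k → V} (hx : Orthonormal ℝ x) (hy : Orthonormal ℝ y) : v0 μ x = v0 μ y := by
  obtain ⟨b, hb⟩ := exists_extend hn h hx
  obtain ⟨b', hb'⟩ := exists_extend hn h hy
  rw [v0, v0, ← hb, ← hb', J3_basis hμ]

lemma v0_pos {μ : Measure (Gr V k)} (hμ : IsInvariantProb μ) (hn : finrank ℝ V = n) (h : k ≤ n)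
    {x : Fin k → V} (hx : Orthonormal ℝ x) : 0 < v0 μ x := by
  have := hμ.1
  have hnn : ∀ y : Fin k → V, 0 ≤ v0 μ y := by
    intro y
    refine integral_nonneg fun E => ?_
    exact mul_nonneg (abs_nonneg _) (mul_self_nonneg _)
  rcases (hnn x).lt_or_eq with h0 | h0
  · exact h0
  exfalso
  let b : OrthonormalBasis (Fin n) ℝ V := (stdOrthonormalBasis ℝ V).reindex (finCongr hn)
  have hz : ∀ J : Set.powersetCard (Fin n) k, ∀ᵐ E ∂μ, pc E (sub b J) = 0 := by
    intro J
    have h1 : v0 μ (sub b J) = 0 := by rw [v0_eq hμ hn h (sub_orthonormal b J) hx, ← h0]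
    rw [v0, J3] at h1
    rw [integral_eq_zero_iff_of_nonneg (fun E => mul_nonneg (abs_nonneg _) (mul_self_nonneg _))
      (integrable_J3 (sub_orthonormal b J) (sub_orthonormal b J) (sub_orthonormal b J))] at h1
    filter_upwards [h1] with E hE
    simp only [Pi.zero_apply, mul_eq_zero, abs_eq_zero, or_self] at hE
    exact hE
  have hall : ∀ᵐ E ∂μ, ∀ J : Set.powersetCard (Fin n) k, pc E (sub b J) = 0 :=
    ae_all_iff.mpr hz
  obtain ⟨E, hE⟩ := hall.exists
  have h1 := inner_om_self_of_orthonormal (fr_orthonormal E)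
  rw [cauchyBinet b] at h1
  have h2 : ∀ J : Set.powersetCard (Fin n) k, ⟪om (fr E), om (sub b J)⟫ = 0 := hE
  simp [h2] at h1

/-- The cosine transform of a combination of squared coordinates. -/
lemma cosTransform_formula {μ : Measure (Gr V k)} (hμ : IsInvariantProb μ)
    (hn : finrank ℝ V = n) (h : k ≤ n)
    (e : OrthonormalBasis (Fin n) ℝ V) (g : Set.powersetCard (Fin n) k → ℝ) (E' : Gr V k) :
    cosTransform μ (fun E => ∑ I, g I * (pc E (sub e I) * pc E (sub e I))) E' =
      v0 μ (sub e (K0 h)) * ∑ J : Set.powersetCard (Fin n) k,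
        (∑ I, g I / (dif J I + 1 : ℝ)) * (pc E' (sub e J) * pc E' (sub e J)) := by
  have := hμ.1
  obtain ⟨b, hb⟩ := exists_extend hn h (fr_orthonormal E')
  have hb' : sub b (K0 h) = fr E' := by rw [sub_K0, hb]
  have h1 : ∀ E : Gr V k, absCos E.carrier E'.carrier *
      (∑ I, g I * (pc E (sub e I) * pc E (sub e I))) =
      ∑ I, g I * (|pc E (sub b (K0 h))| * (pc E (sub e I) * pc E (sub e I))) := by
    intro E
    rw [absCos_eq E E' (fr_orthonormal E') (span_fr E'), hb', Finset.mul_sum]
    refine Finset.sum_congr rfl fun I _ => ?_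
    ring
  rw [cosTransform]
  simp only [h1]
  rw [integral_finsetSum _ (fun I _ => (integrable_J3 (sub_orthonormal b _)
    (sub_orthonormal e I) (sub_orthonormal e I)).const_mul _)]
  have h2 : ∀ I : Set.powersetCard (Fin n) k,
      ∫ E, g I * (|pc E (sub b (K0 h))| * (pc E (sub e I) * pc E (sub e I))) ∂μ =
      v0 μ (sub e (K0 h)) * ∑ J : Set.powersetCard (Fin n) k,
        (g I / (dif J I + 1 : ℝ)) * (pc E' (sub e J) * pc E' (sub e J)) := by
    intro I
    rw [integral_const_mul, weighted_square hμ, inv_symm b e (K0 h) I]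
    have h3 : J3 μ (sub b (K0 h)) (sub b (K0 h)) (sub b (K0 h)) = v0 μ (sub e (K0 h)) :=
      v0_eq hμ hn h (sub_orthonormal b _) (sub_orthonormal e _)
    rw [h3, Finset.mul_sum, Finset.mul_sum, Finset.mul_sum]
    refine Finset.sum_congr rfl fun J _ => ?_
    rw [hb', pc, real_inner_comm]
    ring
  simp only [h2]
  rw [← Finset.mul_sum, Finset.sum_comm]
  congr 1
  refine Finset.sum_congr rfl fun J _ => ?_
  rw [Finset.sum_mul]

/-- squared coordinates are smooth functions on the Grassmannian -/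
lemma isSmooth_combination (e : OrthonormalBasis (Fin n) ℝ V)
    (g : Set.powersetCard (Fin n) k → ℝ) :
    IsSmooth (fun E : Gr V k => ∑ I, g I * (pc E (sub e I) * pc E (sub e I))) := by
  refine ⟨fun P => ∑ I, g I * Matrix.det (Matrix.of fun i j => ⟪sub e I i, P (sub e I j)⟫), ?_, ?_⟩
  · refine ContDiff.sum fun I _ => ?_
    refine contDiff_const.mul ?_
    simp only [Matrix.det_apply]
    refine ContDiff.sum fun σ _ => ?_
    refine ContDiff.const_smul _ ?_
    refine contDiff_prod fun i _ => ?_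
    simp only [Matrix.of_apply]
    exact contDiff_const.inner ℝ (contDiff_id.clm_apply contDiff_const)
  · intro E
    simp only [pc_mul]

/-- vanishing of `|cos(E, F^⊥)|` -/
lemma absCos_eq_zero_iff (E E₀ : Gr V k) (F : Submodule ℝ V) (hF : E₀.carrier = Fᗮ) :
    absCos E.carrier E₀.carrier = 0 ↔ E.carrier ⊓ F ≠ ⊥ := by
  have h0 : 0 ≤ LinearMap.det (compProj E.carrier E₀.carrier) := by
    rw [det_compProj E E₀ (fr_orthonormal E₀) (span_fr E₀)]; exact mul_self_nonneg _
  rw [absCos, Real.sqrt_eq_zero h0, LinearMap.det_eq_zero_iff_ker_ne_bot]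
  constructor
  · intro hker
    obtain ⟨x, hx, hx0⟩ := (Submodule.ne_bot_iff _).mp hker
    rw [LinearMap.mem_ker] at hx
    rw [Submodule.ne_bot_iff]
    refine ⟨x, ⟨x.2, ?_⟩, by simpa using hx0⟩
    have h2 : ⟪(x : V), E₀.carrier.starProjection x⟫ = 0 := by
      have h3 : ⟪x, compProj E.carrier E₀.carrier x⟫ = 0 := by rw [hx, inner_zero_right]
      have h4 : ⟪x, compProj E.carrier E₀.carrier x⟫ = ⟪(x : V), E₀.carrier.starProjection x⟫ :=
        E.carrier.inner_orthogonalProjectionOnto_eq_of_mem_left _ _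
      rw [← h4, h3]
    have h5 : E₀.carrier.starProjection (x : V) = 0 := by
      have h6 : ⟪E₀.carrier.starProjection (x : V), E₀.carrier.starProjection (x : V)⟫ = 0 := by
        rw [← h2, Submodule.inner_starProjection_left_eq_right,
          Submodule.starProjection_eq_self_iff.mpr (Submodule.starProjection_apply_mem _ _)]
      exact inner_self_eq_zero.mp h6
    rw [Submodule.starProjection_apply_eq_zero_iff, hF, Submodule.orthogonal_orthogonal] at h5
    exact h5
  · intro hne
    obtain ⟨x, ⟨hxE, hxF⟩, hx0⟩ := (Submodule.ne_bot_iff _).mp hne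
    rw [Submodule.ne_bot_iff]
    refine ⟨⟨x, hxE⟩, ?_, by simpa using hx0⟩
    rw [LinearMap.mem_ker]
    have h1 : E₀.carrier.starProjection x = 0 := by
      rw [Submodule.starProjection_apply_eq_zero_iff, hF, Submodule.orthogonal_orthogonal]
      exact hxF
    have : compProj E.carrier E₀.carrier ⟨x, hxE⟩ = E.carrier.orthogonalProjectionOnto (E₀.carrier.starProjection x) := rfl
    rw [this, h1, map_zero]

end Pool.Agent.helper28.Cosine
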