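import Pool.Agent.helper28.Cosine.Basic
import Pool.Agent.helper28.Cosine.Deriv

open Module RealInnerProductSpace MeasureTheory

namespace Pool.Agent.helper28.Cosine

variable {V : Type*} [NormedAddCommGroup V] [InnerProductSpace ℝ V] [FiniteDimensional ℝ V]
variable {k n : ℕ}

/-- mixed moment of Pluecker coordinates -/
noncomputable def J3 (μ : Measure (Gr V k)) (x y z : Fin k → V) : ℝ :=
  ∫ E, |pc E x| * (pc E y * pc E z) ∂μ

lemma continuous_J3_integrand (x y z : Fin k → V) :
    Continuous fun E : Gr V k => |pc E x| * (pc E y * pc E z) :=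
  (continuous_abs_pc x).mul (continuous_pc_mul y z)

lemma J3_map {μ : Measure (Gr V k)} (hμ : IsInvariantProb μ) (g : V ≃ₗᵢ[ℝ] V)
    (x y z : Fin k → V) : J3 μ (g ∘ x) (g ∘ y) (g ∘ z) = J3 μ x y z := by
  have h1 : J3 μ (g ∘ x) (g ∘ y) (g ∘ z) =
      ∫ E, |pc E (g ∘ x)| * (pc E (g ∘ y) * pc E (g ∘ z)) ∂(μ.map (Gr.map g)) := by
    rw [hμ.2 g]; rfl
  rw [h1, integral_map (continuous_map g).measurable.aemeasurable
    (continuous_J3_integrand _ _ _).aestronglyMeasurable]
  simp only [abs_pc_map, pc_mul_map]
  rfl

/-- change of orthonormal basis -/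
lemma J3_basis {μ : Measure (Gr V k)} (hμ : IsInvariantProb μ)
    (b b' : OrthonormalBasis (Fin n) ℝ V) (x y z : Fin k → Fin n) :
    J3 μ (b' ∘ x) (b' ∘ y) (b' ∘ z) = J3 μ (b ∘ x) (b ∘ y) (b ∘ z) := by
  have h : ∀ w : Fin k → Fin n, (b' ∘ w : Fin k → V) = (b.equiv b' (Equiv.refl _)) ∘ (b ∘ w) := by
    intro w; ext1 i
    simp
  rw [h, h, h, J3_map hμ]

lemma om_update_add (x : Fin k → V) (i : Fin k) (v w : V) (α β : ℝ) :
    om (Function.update x i (α • v + β • w)) =
      α • om (Function.update x i v) + β • om (Function.update x i w) := by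
  simp only [om, AlternatingMap.map_update_add, AlternatingMap.map_update_smul]

lemma pc_update_add (E : Gr V k) (x : Fin k → V) (i : Fin k) (v w : V) (α β : ℝ) :
    pc E (Function.update x i (α • v + β • w)) =
      α * pc E (Function.update x i v) + β * pc E (Function.update x i w) := by
  rw [pc, om_update_add, inner_add_right, inner_smul_right, inner_smul_right]; rfl

/-- build an orthonormal basis from an orthonormal family of the right size -/
lemma exists_onb (b : OrthonormalBasis (Fin n) ℝ V) {f : Fin n → V} (hf : Orthonormal ℝ f) :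
    ∃ b' : OrthonormalBasis (Fin n) ℝ V, ∀ i, b' i = f i := by
  have hcard : Fintype.card (Fin n) = finrank ℝ V := (finrank_eq_card_basis b.toBasis).symm
  refine ⟨(basisOfLinearIndependentOfCardEqFinrank' f hf.linearIndependent hcard).toOrthonormalBasis
    (by simpa using hf), fun i => by simp⟩

/-- reflection in the `i`-th basis vector -/
lemma exists_reflection (b : OrthonormalBasis (Fin n) ℝ V) (i : Fin n) :
    ∃ b' : OrthonormalBasis (Fin n) ℝ V, (b' : Fin n → V) = Function.update b i (-(b i)) := by
  have : Orthonormal ℝ (Function.update b i (-(b i))) := by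
    rw [orthonormal_iff_ite]
    intro a c
    have hb := orthonormal_iff_ite.mp b.orthonormal
    by_cases ha : a = i <;> by_cases hc : c = i
    · subst ha; subst hc; simp
    · subst ha
      rw [Function.update_self, Function.update_of_ne hc, inner_neg_left, hb]
      simp [Ne.symm hc]
    · subst hc
      rw [Function.update_self, Function.update_of_ne ha, inner_neg_right, hb]
      simp [ha]
    · rw [Function.update_of_ne ha, Function.update_of_ne hc, hb]
  obtain ⟨b', hb'⟩ := exists_onb b this
  exact ⟨b', funext hb'⟩

/-- rotation in the plane of the basis vectors `a`, `c` -/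
lemma exists_rotation (b : OrthonormalBasis (Fin n) ℝ V) {a c : Fin n} (hac : a ≠ c) (t : ℝ) :
    ∃ b' : OrthonormalBasis (Fin n) ℝ V, (b' : Fin n → V) =
      Function.update (Function.update b a (Real.cos t • b a + Real.sin t • b c))
        c (-Real.sin t • b a + Real.cos t • b c) := by
  have hb := orthonormal_iff_ite.mp b.orthonormal
  have key : Orthonormal ℝ (Function.update (Function.update b a
      (Real.cos t • b a + Real.sin t • b c))
        c (-Real.sin t • b a + Real.cos t • b c)) := by
    rw [orthonormal_iff_ite]
    have hsc := Real.sin_sq_add_cos_sq t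
    have aux : ∀ x y : Fin n, x ≠ c → y ≠ c → x ≠ a → y ≠ a →
      ⟪b x, b y⟫ = if x = y then 1 else 0 := fun x y _ _ _ _ => hb x y
    intro x y
    by_cases hxc : x = c
    · by_cases hyc : y = c
      · subst hxc; subst hyc
        simp only [Function.update_self, inner_add_left, inner_add_right, inner_smul_left,
          inner_smul_right, hb, RCLike.conj_to_real, if_true, hac, hac.symm, if_false]
        simp
        nlinarith
      · by_cases hya : y = a
        · subst hxc; subst hya
          simp only [Function.update_self, Function.update_of_ne hac,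
            inner_add_left, inner_add_right, inner_smul_left,
            inner_smul_right, hb, RCLike.conj_to_real, if_true, hac, hac.symm, if_false]
          simp
          ring
        · subst hxc
          simp only [Function.update_self, Function.update_of_ne hyc, Function.update_of_ne hya,
            inner_add_left, inner_smul_left, hb, Ne.symm hyc, Ne.symm hya, if_false]
          simp
    · by_cases hxa : x = a
      · subst hxa
        by_cases hyc : y = c
        · subst hyc
          simp only [Function.update_self, Function.update_of_ne hac,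
            inner_add_left, inner_add_right, inner_smul_left,
            inner_smul_right, hb, RCLike.conj_to_real, if_true, hac, hac.symm, if_false]
          simp
          ring
        · by_cases hya : y = x
          · subst hya
            simp only [Function.update_self, Function.update_of_ne hac,
              inner_add_left, inner_add_right, inner_smul_left,
              inner_smul_right, hb, RCLike.conj_to_real, if_true, hac, hac.symm, if_false]
            simp
            nlinarith
          · simp only [Function.update_self, Function.update_of_ne hac,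
              Function.update_of_ne hyc, Function.update_of_ne hya,
              inner_add_left, inner_smul_left, hb, Ne.symm hyc, Ne.symm hya, if_false]
            simp
      · by_cases hyc : y = c
        · subst hyc
          simp only [Function.update_self, Function.update_of_ne hxc, Function.update_of_ne hxa,
            inner_add_right, inner_smul_right, hb, hxc, hxa, if_false]
          simp
        · by_cases hya : y = a
          · subst hya
            simp only [Function.update_self, Function.update_of_ne hxc, Function.update_of_ne hxa,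
              Function.update_of_ne hac,
              inner_add_right, inner_smul_right, hb, hxc, hxa, if_false]
            simp
          · rw [Function.update_of_ne hxc, Function.update_of_ne hxa,
              Function.update_of_ne hyc, Function.update_of_ne hya, hb]
  obtain ⟨b', hb'⟩ := exists_onb b key
  exact ⟨b', funext hb'⟩

omit [NormedAddCommGroup V] [InnerProductSpace ℝ V] [FiniteDimensional ℝ V] in
lemma comp_update_of_notMem {b : Fin n → V} {i : Fin n} {v : V} {w : Fin k → Fin n}
    (h : i ∉ Set.range w) : (Function.update b i v) ∘ w = b ∘ w := by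
  ext1 j
  have : w j ≠ i := fun hj => h ⟨j, hj⟩
  simp [Function.update_of_ne this]

omit [NormedAddCommGroup V] [InnerProductSpace ℝ V] [FiniteDimensional ℝ V] in
lemma comp_update_of_mem {b : Fin n → V} {i : Fin n} {v : V} {w : Fin k → Fin n}
    (hw : Function.Injective w) {j : Fin k} (h : w j = i) :
    (Function.update b i v) ∘ w = Function.update (b ∘ w) j v := by
  ext1 l
  by_cases hl : l = j
  · subst hl; simp [h]
  · have : w l ≠ i := fun hj => hl (hw (hj.trans h.symm))
    simp [Function.update_of_ne this, Function.update_of_ne hl]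

lemma pc_update_neg (E : Gr V k) (x : Fin k → V) (i : Fin k) (v : V) :
    pc E (Function.update x i (-v)) = - pc E (Function.update x i v) := by
  have := pc_update_add E x i v 0 (-1) 0
  simpa using this

lemma J3_off {μ : Measure (Gr V k)} (hμ : IsInvariantProb μ)
    (b : OrthonormalBasis (Fin n) ℝ V) {κ y z : Fin k → Fin n}
    (hκ : Function.Injective κ) (hy : Function.Injective y) {i : Fin n}
    (hiy : i ∈ Set.range y) (hiz : i ∉ Set.range z) :
    J3 μ (b ∘ κ) (b ∘ y) (b ∘ z) = 0 := by
  obtain ⟨b', hb'⟩ := exists_reflection b i
  obtain ⟨j, hj⟩ := hiy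
  have h1 := J3_basis hμ b b' κ y z
  have hz : (b' : Fin n → V) ∘ z = b ∘ z := by rw [hb', comp_update_of_notMem hiz]
  have hyy : ∀ E, pc E ((b' : Fin n → V) ∘ y) = - pc E (b ∘ y) := by
    intro E
    rw [hb', comp_update_of_mem hy hj, pc_update_neg]
    congr 2
    rw [← hj]
    exact Function.update_eq_self j (b ∘ y)
  have hk : ∀ E, |pc E ((b' : Fin n → V) ∘ κ)| = |pc E (b ∘ κ)| := by
    intro E
    rw [hb']
    by_cases h : i ∈ Set.range κ
    · obtain ⟨l, hl⟩ := h
      rw [comp_update_of_mem hκ hl, pc_update_neg, abs_neg]
      congr 2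
      rw [← hl]
      exact Function.update_eq_self l (b ∘ κ)
    · rw [comp_update_of_notMem h]
  have h2 : J3 μ (b' ∘ κ) (b' ∘ y) (b' ∘ z) = - J3 μ (b ∘ κ) (b ∘ y) (b ∘ z) := by
    rw [J3, J3, ← integral_neg]
    refine integral_congr_ae (Filter.Eventually.of_forall fun E => ?_)
    simp only [hk, hyy, hz]
    ring
  linarith

lemma orthonormal_comp (b : OrthonormalBasis (Fin n) ℝ V) {y : Fin k → Fin n}
    (hy : Function.Injective y) : Orthonormal ℝ (b ∘ y) := b.orthonormal.comp _ hy

lemma update_injective {y : Fin k → Fin n} (hy : Function.Injective y) {a : Fin n}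
    (ha : a ∉ Set.range y) (i : Fin k) : Function.Injective (Function.update y i a) := by
  intro p q hpq
  by_cases hp : p = i <;> by_cases hq : q = i
  · rw [hp, hq]
  · subst hp
    rw [Function.update_self, Function.update_of_ne hq] at hpq
    exact absurd ⟨q, hpq.symm⟩ ha
  · subst hq
    rw [Function.update_self, Function.update_of_ne hp] at hpq
    exact absurd ⟨p, hpq⟩ ha
  · rw [Function.update_of_ne hp, Function.update_of_ne hq] at hpq
    exact hy hpq

/-- infinitesimal rotation identity -/
lemma rotation_identity {μ : Measure (Gr V k)} (hμ : IsInvariantProb μ)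
    (b : OrthonormalBasis (Fin n) ℝ V) {κ y : Fin k → Fin n}
    (hκ : Function.Injective κ) (hy : Function.Injective y) (i₀ i : Fin k)
    (ha : κ i₀ ∉ Set.range y) (hc : y i ∉ Set.range κ) :
    ∫ E, (SignType.sign (pc E (b ∘ κ)) * pc E (b ∘ Function.update κ i₀ (y i)) *
        (pc E (b ∘ y) * pc E (b ∘ Function.update y i (κ i₀))) +
      |pc E (b ∘ κ)| * (pc E (b ∘ y) ^ 2 - pc E (b ∘ Function.update y i (κ i₀)) ^ 2)) ∂μ = 0 := by
  haveI := hμ.1
  set a := κ i₀ with hadef
  set c := y i with hcdef
  set y' := Function.update y i a with hy'def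
  have hac : a ≠ c := fun h => ha ⟨i, h.symm⟩
  have hy' : Function.Injective y' := update_injective hy ha i
  have hcy' : c ∉ Set.range y' := by
    rintro ⟨p, hp⟩
    by_cases hpi : p = i
    · subst hpi; rw [hy'def, Function.update_self] at hp; exact hac hp
    · rw [hy'def, Function.update_of_ne hpi] at hp
      exact hpi (hy hp)
  have hay' : y' i = a := by rw [hy'def, Function.update_self]
  -- the rotated coordinates
  have hrot : ∀ t : ℝ, ∃ b' : OrthonormalBasis (Fin n) ℝ V, ∀ E : Gr V k,
      pc E (b' ∘ κ) = Real.cos t * pc E (b ∘ κ) + Real.sin t * pc E (b ∘ Function.update κ i₀ c) ∧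
      pc E (b' ∘ y) = -Real.sin t * pc E (b ∘ y') + Real.cos t * pc E (b ∘ y) ∧
      pc E (b' ∘ y') = Real.cos t * pc E (b ∘ y') + Real.sin t * pc E (b ∘ y) := by
    intro t
    obtain ⟨b', hb'⟩ := exists_rotation b hac t
    refine ⟨b', fun E => ⟨?_, ?_, ?_⟩⟩
    · rw [hb', comp_update_of_notMem hc, comp_update_of_mem hκ hadef.symm, pc_update_add]
      congr 3
      · rw [hadef]; exact Function.update_eq_self i₀ (b ∘ κ)
      · rw [Function.comp_update]
    · rw [hb', comp_update_of_mem hy hcdef.symm, comp_update_of_notMem ha, pc_update_add]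
      congr 3
      · rw [hy'def, Function.comp_update]
      · rw [hcdef]; exact Function.update_eq_self i (b ∘ y)
    · rw [hb', comp_update_of_notMem hcy', comp_update_of_mem hy' hay', pc_update_add]
      congr 3
      · rw [← hay']; exact Function.update_eq_self i (b ∘ y')
      · rw [hy'def, Function.comp_update, Function.update_idem, hcdef]
        exact Function.update_eq_self i (b ∘ y)
  refine integral_rotation μ (fun E => pc E (b ∘ κ)) (fun E => pc E (b ∘ Function.update κ i₀ c))
    (fun E => pc E (b ∘ y)) (fun E => pc E (b ∘ y'))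
    (fun E => abs_pc_le_one E (orthonormal_comp b hκ))
    (fun E => abs_pc_le_one E (orthonormal_comp b (update_injective hκ hc i₀)))
    (fun E => abs_pc_le_one E (orthonormal_comp b hy))
    (fun E => abs_pc_le_one E (orthonormal_comp b hy')) ?_ (J3 μ (b ∘ κ) (b ∘ y) (b ∘ y')) ?_
  · intro t
    obtain ⟨b', hb'⟩ := hrot t
    have : (fun E : Gr V k => rotf (pc E (b ∘ κ)) (pc E (b ∘ Function.update κ i₀ c))
        (pc E (b ∘ y)) (pc E (b ∘ y')) t) =
        fun E => |pc E (b' ∘ κ)| * (pc E (b' ∘ y) * pc E (b' ∘ y')) := by
      ext E
      rw [(hb' E).1, (hb' E).2.1, (hb' E).2.2]; rfl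
    rw [this]
    exact (continuous_J3_integrand _ _ _).aestronglyMeasurable
  · intro t
    obtain ⟨b', hb'⟩ := hrot t
    rw [← J3_basis hμ b b' κ y y', J3]
    refine integral_congr_ae (Filter.Eventually.of_forall fun E => ?_)
    simp only [(hb' E).1, (hb' E).2.1, (hb' E).2.2]; rfl

end Pool.Agent.helper28.Cosine
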