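import Pool.Agent.helper28.Cosine.Moments

open Module RealInnerProductSpace MeasureTheory

namespace Pool.Agent.helper28.Cosine

variable {V : Type*} [NormedAddCommGroup V] [InnerProductSpace ℝ V] [FiniteDimensional ℝ V]
variable {k n : ℕ}

/-- Pluecker exchange relation with one index (Cramer's rule). -/
lemma pc_exchange (E : Gr V k) (x w : Fin k → V) (i₀ : Fin k) :
    pc E x * pc E w =
      ∑ i, pc E (Function.update w i (x i₀)) * pc E (Function.update x i₀ (w i)) := by
  set z : V → (Fin k → ℝ) := fun v j => ⟪fr E j, v⟫ with hz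
  set M : (Fin k → V) → Matrix (Fin k) (Fin k) ℝ := fun w => Matrix.of fun i => z (w i) with hM
  have hpc : ∀ w, pc E w = (M w).det := fun w => inner_om _ _
  have hup : ∀ (w : Fin k → V) i v, M (Function.update w i v) = (M w).updateRow i (z v) := by
    intro w i v
    ext p q
    by_cases hp : p = i
    · subst hp; simp [hM]
    · simp [hM, Function.update_of_ne hp, Matrix.updateRow_ne hp]
  have hcr : (M w).det • z (x i₀) = ∑ i, (Matrix.cramer (M w).transpose (z (x i₀)) i) • z (w i) := by
    have h := Matrix.mulVec_cramer (M w).transpose (z (x i₀))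
    rw [Matrix.det_transpose] at h
    rw [← h]
    ext j
    rw [Matrix.mulVec, dotProduct, Finset.sum_apply]
    refine Finset.sum_congr rfl fun i _ => ?_
    simp only [Matrix.transpose_apply, Pi.smul_apply, smul_eq_mul, hM, Matrix.of_apply]
    ring
  have hcr2 : ∀ i, Matrix.cramer (M w).transpose (z (x i₀)) i =
      pc E (Function.update w i (x i₀)) := by
    intro i
    rw [hpc, hup, Matrix.cramer_transpose_apply]
  have h1 : ((M x).updateRow i₀ ((M w).det • z (x i₀))).det = (M w).det * (M x).det := by
    rw [Matrix.det_updateRow_smul]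
    congr 2
    exact Matrix.updateRow_eq_self _ _
  have h2 : ((M x).updateRow i₀ ((M w).det • z (x i₀))).det =
      ∑ i, pc E (Function.update w i (x i₀)) * pc E (Function.update x i₀ (w i)) := by
    rw [hcr]
    have : ∀ v : Fin k → ℝ, ((M x).updateRow i₀ v).det =
        Matrix.detRowAlternating (Function.update (M x : Fin k → Fin k → ℝ) i₀ v) := fun v => rfl
    rw [this, AlternatingMap.map_update_sum]
    refine Finset.sum_congr rfl fun i _ => ?_
    rw [AlternatingMap.map_update_smul, hcr2, smul_eq_mul, ← this, hpc (Function.update x i₀ (w i)),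
      hup]
  rw [hpc x, hpc w, mul_comm, ← h1, h2]

lemma pc_eq_zero_of_repeat (E : Gr V k) {x : Fin k → V} {i j : Fin k} (hij : i ≠ j)
    (h : x i = x j) : pc E x = 0 := by
  have : om x = 0 := AlternatingMap.map_eq_zero_of_eq (exteriorPower.ιMulti ℝ k) x h hij
  rw [pc, this, inner_zero_right]

open Classical in
/-- positions of `y` with value outside the range of `κ` -/
noncomputable def outs (κ y : Fin k → Fin n) : Finset (Fin k) :=
  Finset.univ.filter fun i => y i ∉ Set.range κ

lemma mem_outs {κ y : Fin k → Fin n} {i : Fin k} : i ∈ outs κ y ↔ y i ∉ Set.range κ := by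
  classical
  simp [outs]

lemma outs_update {κ y : Fin k → Fin n} {i₀ i : Fin k} (hi : i ∈ outs κ y) :
    (outs κ (Function.update y i (κ i₀))).card + 1 = (outs κ y).card := by
  classical
  have : outs κ (Function.update y i (κ i₀)) = (outs κ y).erase i := by
    ext j
    rw [Finset.mem_erase, mem_outs, mem_outs]
    by_cases hj : j = i
    · subst hj; simp
    · simp [hj]
  rw [this, Finset.card_erase_add_one hi]

lemma sign_form (X X' Y Y' : ℝ) :
    (SignType.sign X : ℝ) * X' * (Y * Y') = (X * X') * (Y * Y') * |X|⁻¹ := by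
  rcases lt_trichotomy X 0 with h | h | h
  · rw [sign_neg h, abs_of_neg h]
    have : X ≠ 0 := h.ne
    simp only [SignType.coe_neg_one]
    field_simp
  · subst h; simp
  · rw [sign_pos h, abs_of_pos h]
    have : X ≠ 0 := h.ne'
    simp only [SignType.coe_one]
    field_simp

lemma integrable_sign {μ : Measure (Gr V k)} [IsProbabilityMeasure μ]
    {x x' y y' : Fin k → V} (hx' : Orthonormal ℝ x')
    (hy : Orthonormal ℝ y) (hy' : Orthonormal ℝ y') :
    Integrable (fun E => (SignType.sign (pc E x) : ℝ) * pc E x' * (pc E y * pc E y')) μ := by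
  have hmeas : Measurable (fun E : Gr V k =>
      (SignType.sign (pc E x) : ℝ) * pc E x' * (pc E y * pc E y')) := by
    simp_rw [sign_form]
    exact ((continuous_pc_mul _ _).measurable.mul (continuous_pc_mul _ _).measurable).mul
      (continuous_abs_pc _).measurable.inv
  refine Integrable.of_bound hmeas.aestronglyMeasurable 1 (Filter.Eventually.of_forall fun E => ?_)
  rw [Real.norm_eq_abs, abs_mul, abs_mul, abs_mul]
  have h1 : |(SignType.sign (pc E x) : ℝ)| ≤ 1 := by
    rcases lt_trichotomy (pc E x) 0 with h | h | h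
    · simp [sign_neg h]
    · simp [h]
    · simp [sign_pos h]
  have h2 := abs_pc_le_one E hx'
  have h3 := abs_pc_le_one E hy
  have h4 := abs_pc_le_one E hy'
  calc _ ≤ (1 * 1) * (1 * 1) :=
        mul_le_mul (mul_le_mul h1 h2 (abs_nonneg _) zero_le_one)
          (mul_le_mul h3 h4 (abs_nonneg _) zero_le_one) (by positivity) (by norm_num)
    _ = 1 := by norm_num

lemma integrable_J3 {μ : Measure (Gr V k)} [IsProbabilityMeasure μ]
    {x y z : Fin k → V} (hx : Orthonormal ℝ x)
    (hy : Orthonormal ℝ y) (hz : Orthonormal ℝ z) :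
    Integrable (fun E => |pc E x| * (pc E y * pc E z)) μ := by
  refine Integrable.of_bound (continuous_J3_integrand _ _ _).aestronglyMeasurable 1
    (Filter.Eventually.of_forall fun E => ?_)
  rw [Real.norm_eq_abs, abs_mul, abs_mul, abs_abs]
  have h2 := abs_pc_le_one E hx
  have h3 := abs_pc_le_one E hy
  have h4 := abs_pc_le_one E hz
  calc _ ≤ 1 * (1 * 1) :=
        mul_le_mul h2
          (mul_le_mul h3 h4 (abs_nonneg _) zero_le_one) (by positivity) (by norm_num)
    _ = 1 := by norm_num

/-- one-step consequence of the rotation identity -/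
lemma rotation_step {μ : Measure (Gr V k)} (hμ : IsInvariantProb μ)
    (b : OrthonormalBasis (Fin n) ℝ V) {κ y : Fin k → Fin n}
    (hκ : Function.Injective κ) (hy : Function.Injective y) (i₀ i : Fin k)
    (ha : κ i₀ ∉ Set.range y) (hc : y i ∉ Set.range κ) :
    ∫ E, (SignType.sign (pc E (b ∘ κ)) : ℝ) * pc E (b ∘ Function.update κ i₀ (y i)) *
        (pc E (b ∘ y) * pc E (b ∘ Function.update y i (κ i₀))) ∂μ =
      J3 μ (b ∘ κ) (b ∘ Function.update y i (κ i₀)) (b ∘ Function.update y i (κ i₀)) -
        J3 μ (b ∘ κ) (b ∘ y) (b ∘ y) := by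
  have := hμ.1
  have h := rotation_identity hμ b hκ hy i₀ i ha hc
  have o1 := orthonormal_comp b hκ
  have o2 := orthonormal_comp b (update_injective hκ hc i₀)
  have o3 := orthonormal_comp b hy
  have o4 := orthonormal_comp b (update_injective hy ha i)
  have e : ∀ E : Gr V k, |pc E (b ∘ κ)| *
      (pc E (b ∘ y) ^ 2 - pc E (b ∘ Function.update y i (κ i₀)) ^ 2) =
      |pc E (b ∘ κ)| * (pc E (b ∘ y) * pc E (b ∘ y)) -
      |pc E (b ∘ κ)| * (pc E (b ∘ Function.update y i (κ i₀)) *
        pc E (b ∘ Function.update y i (κ i₀))) := by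
    intro E; ring
  simp only [e] at h
  have hs := integral_add (μ := μ) (integrable_sign (x := b ∘ κ) o2 o3 o4)
    ((integrable_J3 (μ := μ) o1 o3 o3).sub (integrable_J3 (μ := μ) o1 o4 o4))
  have hs2 := integral_sub (integrable_J3 (μ := μ) o1 o3 o3) (integrable_J3 (μ := μ) o1 o4 o4)
  simp only [Pi.sub_apply] at hs
  rw [hs, hs2] at h
  simp only [J3]
  linarith

lemma pc_perm (E : Gr V k) (x : Fin k → V) (σ : Equiv.Perm (Fin k)) :
    pc E (x ∘ σ) * pc E (x ∘ σ) = pc E x * pc E x := by
  have h : om (x ∘ σ) = Equiv.Perm.sign σ • om x :=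
    AlternatingMap.map_perm (exteriorPower.ιMulti ℝ k) x σ
  rcases Int.units_eq_one_or (Equiv.Perm.sign σ) with hs | hs
  · rw [pc, h, hs, one_smul]; rfl
  · have h2 : om (x ∘ σ) = - om x := by rw [h, hs]; simp
    rw [pc, h2, inner_neg_right]
    simp [pc]

/-- The moments of Pluecker coordinates weighted by `|p_κ|`. -/
lemma moment_formula {μ : Measure (Gr V k)} (hμ : IsInvariantProb μ)
    (b : OrthonormalBasis (Fin n) ℝ V) {κ : Fin k → Fin n}
    (hκ : Function.Injective κ) : ∀ (r : ℕ) (y : Fin k → Fin n), Function.Injective y →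
    (outs κ y).card = r →
    J3 μ (b ∘ κ) (b ∘ y) (b ∘ y) = J3 μ (b ∘ κ) (b ∘ κ) (b ∘ κ) / (r + 1 : ℝ) := by
  have := hμ.1
  intro r
  induction r with
  | zero =>
    intro y hy hr
    have hall : ∀ i, ∃ j, κ j = y i := by
      intro i
      by_contra hcon
      have : i ∈ outs κ y := mem_outs.mpr hcon
      rw [Finset.card_eq_zero] at hr
      rw [hr] at this
      exact absurd this (Finset.notMem_empty _)
    choose σ hσ using hall
    have hσi : Function.Injective σ := by
      intro p q hpq
      apply hy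
      rw [← hσ p, ← hσ q, hpq]
    have hσb : Function.Bijective σ := Finite.injective_iff_bijective.mp hσi
    have hyσ : (b ∘ y : Fin k → V) = (b ∘ κ) ∘ (Equiv.ofBijective σ hσb) := by
      ext1 i; simp [hσ]
    simp only [J3, hyσ, pc_perm]
    simp
  | succ r ih =>
    intro y hy hr
    -- an element of the range of κ which is missing from the range of y
    obtain ⟨i₀, ha⟩ : ∃ i₀, κ i₀ ∉ Set.range y := by
      by_contra hcon
      push Not at hcon
      choose τ hτ using hcon
      have hτi : Function.Injective τ := by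
        intro p q hpq
        apply hκ
        rw [← hτ p, ← hτ q, hpq]
      have hτs : Function.Surjective τ := (Finite.injective_iff_surjective.mp hτi)
      have hempty : outs κ y = ∅ := by
        rw [Finset.eq_empty_iff_forall_notMem]
        intro i hi
        rw [mem_outs] at hi
        obtain ⟨j, rfl⟩ := hτs i
        exact hi ⟨j, (hτ j).symm⟩
      rw [hempty] at hr
      simp at hr
    have hpt : ∀ E : Gr V k, |pc E (b ∘ κ)| * (pc E (b ∘ y) * pc E (b ∘ y)) =
        ∑ i ∈ outs κ y, (SignType.sign (pc E (b ∘ κ)) : ℝ) *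
          pc E (b ∘ Function.update κ i₀ (y i)) *
          (pc E (b ∘ y) * pc E (b ∘ Function.update y i (κ i₀))) := by
      intro E
      have h1 : |pc E (b ∘ κ)| = (SignType.sign (pc E (b ∘ κ)) : ℝ) * pc E (b ∘ κ) :=
        (sign_mul_self _).symm
      have h2 := pc_exchange E (b ∘ κ) (b ∘ y) i₀
      have h3 : ∑ i, pc E (Function.update (b ∘ y) i ((b ∘ κ) i₀)) *
          pc E (Function.update (b ∘ κ) i₀ ((b ∘ y) i)) =
          ∑ i ∈ outs κ y, pc E (b ∘ Function.update y i (κ i₀)) *
            pc E (b ∘ Function.update κ i₀ (y i)) := by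
        rw [← Finset.sum_subset (Finset.subset_univ (outs κ y))]
        · refine Finset.sum_congr rfl fun i _ => ?_
          rw [Function.comp_update, Function.comp_update]; rfl
        · intro i _ hi
          rw [mem_outs, not_not] at hi
          obtain ⟨j, hj⟩ := hi
          have hji : i₀ ≠ j := by
            intro h; subst h
            exact ha ⟨i, hj.symm⟩
          have : pc E (Function.update (b ∘ κ) i₀ ((b ∘ y) i)) = 0 := by
            apply pc_eq_zero_of_repeat E hji
            rw [Function.update_self, Function.update_of_ne hji.symm]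
            simp [hj]
          rw [this, mul_zero]
      rw [h3] at h2
      calc |pc E (b ∘ κ)| * (pc E (b ∘ y) * pc E (b ∘ y))
          = (SignType.sign (pc E (b ∘ κ)) : ℝ) * (pc E (b ∘ κ) * pc E (b ∘ y)) * pc E (b ∘ y) := by
            rw [h1]; ring
        _ = _ := by
            rw [h2, Finset.mul_sum, Finset.sum_mul]
            refine Finset.sum_congr rfl fun i _ => ?_
            ring
    have hint : ∀ i ∈ outs κ y, Integrable (fun E : Gr V k =>
        (SignType.sign (pc E (b ∘ κ)) : ℝ) * pc E (b ∘ Function.update κ i₀ (y i)) *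
          (pc E (b ∘ y) * pc E (b ∘ Function.update y i (κ i₀)))) μ := by
      intro i hi
      exact integrable_sign (orthonormal_comp b (update_injective hκ (mem_outs.mp hi) i₀))
        (orthonormal_comp b hy) (orthonormal_comp b (update_injective hy ha i))
    have hJ : J3 μ (b ∘ κ) (b ∘ y) (b ∘ y) = ∑ i ∈ outs κ y,
        (J3 μ (b ∘ κ) (b ∘ κ) (b ∘ κ) / (r + 1 : ℝ) - J3 μ (b ∘ κ) (b ∘ y) (b ∘ y)) := by
      conv_lhs => rw [J3]
      simp only [hpt]
      rw [integral_finsetSum _ hint]
      refine Finset.sum_congr rfl fun i hi => ?_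
      rw [rotation_step hμ b hκ hy i₀ i ha (mem_outs.mp hi)]
      congr 1
      apply ih _ (update_injective hy ha i)
      have := outs_update (i₀ := i₀) hi
      omega
    rw [Finset.sum_const, hr, nsmul_eq_mul] at hJ
    push_cast at hJ ⊢
    have h1 : (r : ℝ) + 1 ≠ 0 := by positivity
    have h2 : (r : ℝ) + 1 + 1 ≠ 0 := by positivity
    rw [eq_div_iff h2]
    have h3 : ((r:ℝ) + 1) * (J3 μ (b ∘ κ) (b ∘ κ) (b ∘ κ) / (r + 1 : ℝ)) =
      J3 μ (b ∘ κ) (b ∘ κ) (b ∘ κ) := by field_simp
    rw [mul_sub, h3] at hJ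
    linarith

end Pool.Agent.helper28.Cosine
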